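import Pool.Agent.W_MP_315f31_lc.D_h1.Up
import Pool.Agent.W_MP_315f31_lc.Defs

/-!
# MP_315f31_lc, part (D) (helper1): the trace of `U`-many `x` on `K` and on `Cond K`
-/

universe u

open Cardinal Set Filter

namespace Pool.Agent.W_MP_315f31_lc

variable {K : Type u} [LinearOrder K] [OrderBot K]

/-- The condition which codes `a : K`. -/
noncomputable def cod (a : K) : Cond K :=
  ⟨fun γ => open Classical in if γ = ⊥ then a else ⊥, by
    refine (countable_singleton (⊥ : K)).mono ?_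
    intro γ hγ
    by_contra h
    exact hγ (if_neg h)⟩

theorem cod_inj {a b : K} (h : cod a = cod b) : a = b := by
  have h1 := congrFun (congrArg Subtype.val h) ⊥
  simpa [cod] using h1

omit [OrderBot K] in
theorem Inacc.bdd (hK : Inacc K) (s : ℕ → K) : ∃ b, ∀ n, s n ≤ b := by
  by_contra hc
  push Not at hc
  have h1 : (univ : Set K) = ⋃ n : ULift.{u} ℕ, Iio (s n.down) := by
    symm
    rw [eq_univ_iff_forall]
    intro b
    obtain ⟨n, hn⟩ := hc b
    exact mem_iUnion.2 ⟨⟨n⟩, hn⟩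
  have h2 : #(⋃ n : ULift.{u} ℕ, Iio (s n.down)) < #K := by
    rw [card_iUnion_lt_iff_forall_of_isRegular hK.card.isRegular]
    · intro n
      exact hK.lt _
    · simpa using hK.card.aleph0_lt
  rw [← h1, mk_univ] at h2
  exact lt_irrefl _ h2

section trace

variable [WellFoundedLT K] {Y : Type u} {U : Ultrafilter (Set (ObA (Cond K) Y))}

/-- The trace of `U`-many `x` on `K` and on `Cond K`. -/
theorem IsFNU.trace (hK : Inacc K) (hU : IsFNU (#K) U) (h : K → K) :
    ∀ᶠ x in (U : Filter (Set (ObA (Cond K) Y))), ∃ δ : K, (∀ γ < δ, h γ < δ) ∧ CofU δ ∧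
      ∀ q : Cond K, ObA.p q ∈ x ↔ Bnd q δ := by
  have hκ := hK.card.aleph0_lt
  have hlt : ∀ {I : Type} [Countable I], Cardinal.lift.{u} #I < Cardinal.lift.{0} #K := by
    intro I _
    refine lt_of_le_of_lt (b := ℵ₀) ?_ ?_
    · simp
    · simpa using hκ
  -- initial segment
  have h1 : ∀ᶠ x in (U : Filter (Set (ObA (Cond K) Y))), ∀ o ∈ x, ∀ a : K, o = ObA.p (cod a) →
      ∀ b : Iio a, ObA.p (cod b.1) ∈ x := by
    refine hU.all fun o => ?_
    by_cases ho : ∃ a : K, o = ObA.p (cod a)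
    · obtain ⟨a, rfl⟩ := ho
      have h2 : ∀ᶠ x in (U : Filter (Set (ObA (Cond K) Y))), ∀ b : Iio a, ObA.p (cod b.1) ∈ x :=
        hU.all_small' (hK.lt a) fun b => hU.mem' _
      filter_upwards [h2] with x hx a' ha'
      obtain rfl := cod_inj (ObA.p.inj ha')
      exact hx
    · exact Eventually.of_forall fun x a ha => absurd ⟨a, ha⟩ ho
  -- closed under `h`
  have h2 : ∀ᶠ x in (U : Filter (Set (ObA (Cond K) Y))), ∀ o ∈ x, ∀ a : K, o = ObA.p (cod a) →
      ObA.p (cod (h a)) ∈ x := by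
    refine hU.all fun o => ?_
    by_cases ho : ∃ a : K, o = ObA.p (cod a)
    · obtain ⟨a, rfl⟩ := ho
      filter_upwards [hU.mem' (ObA.p (cod (h a)))] with x hx a' ha'
      obtain rfl := cod_inj (ObA.p.inj ha')
      exact hx
    · exact Eventually.of_forall fun x a ha => absurd ⟨a, ha⟩ ho
  -- cofinality
  have h3 : ∀ᶠ x in (U : Filter (Set (ObA (Cond K) Y))), ∀ s : ℕ → ObA (Cond K) Y,
      (∀ n, s n ∈ x) → ∀ s' : ℕ → K, (∀ n, s n = ObA.p (cod (s' n))) →
        ∃ b, ObA.p (cod b) ∈ x ∧ ∀ n, s' n ≤ b := by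
    refine hU.all_seq hlt fun s => ?_
    by_cases ho : ∃ s' : ℕ → K, ∀ n, s n = ObA.p (cod (s' n))
    · obtain ⟨s', hs'⟩ := ho
      obtain ⟨b, hb⟩ := hK.bdd s'
      filter_upwards [hU.mem' (ObA.p (cod b))] with x hx s'' hs''
      have h4 : s' = s'' := by
        funext n
        exact cod_inj (ObA.p.inj ((hs' n).symm.trans (hs'' n)))
      rw [← h4]
      exact ⟨b, hx, hb⟩
    · exact Eventually.of_forall fun x s' hs' => absurd ⟨s', hs'⟩ ho
  -- conditions, 1
  have h4 : ∀ᶠ x in (U : Filter (Set (ObA (Cond K) Y))), ∀ o ∈ x, ∀ q : Cond K, o = ObA.p q →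
      ∀ γ : {γ // q γ ≠ ⊥}, ObA.p (cod γ.1) ∈ x ∧ ObA.p (cod (q γ.1)) ∈ x := by
    refine hU.all fun o => ?_
    by_cases ho : ∃ q, o = ObA.p q
    · obtain ⟨q, rfl⟩ := ho
      have : Countable {γ // q γ ≠ ⊥} := q.2
      have h5 : ∀ᶠ x in (U : Filter (Set (ObA (Cond K) Y))),
          ∀ γ : {γ // q γ ≠ ⊥}, ObA.p (cod γ.1) ∈ x ∧ ObA.p (cod (q γ.1)) ∈ x :=
        hU.all_countable hκ fun γ => (hU.mem' _).and (hU.mem' _)
      filter_upwards [h5] with x hx q' hq'
      obtain rfl := ObA.p.inj hq'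
      exact hx
    · exact Eventually.of_forall fun x a ha => absurd ⟨a, ha⟩ ho
  -- conditions, 2
  have h5 : ∀ᶠ x in (U : Filter (Set (ObA (Cond K) Y))), ∀ s : ℕ ⊕ ℕ → ObA (Cond K) Y,
      (∀ n, s n ∈ x) → ∀ q : Cond K, (∀ n, ∃ γ, s (Sum.inl n) = ObA.p (cod γ) ∧
        s (Sum.inr n) = ObA.p (cod (q γ))) → (∀ γ, q γ ≠ ⊥ → ∃ n, s (Sum.inl n) = ObA.p (cod γ)) →
        ObA.p q ∈ x := by
    refine hU.all_seq hlt fun s => ?_
    by_cases ho : ∃ q : Cond K, (∀ n, ∃ γ, s (Sum.inl n) = ObA.p (cod γ) ∧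
        s (Sum.inr n) = ObA.p (cod (q γ))) ∧ (∀ γ, q γ ≠ ⊥ → ∃ n, s (Sum.inl n) = ObA.p (cod γ))
    · obtain ⟨q, hq1, hq2⟩ := ho
      filter_upwards [hU.mem' (ObA.p q)] with x hx q' hq1' hq2'
      have key : ∀ n γ, s (Sum.inl n) = ObA.p (cod γ) → q γ = q' γ := by
        intro n γ hn
        obtain ⟨γ1, h6, h7⟩ := hq1 n
        obtain ⟨γ2, h8, h9⟩ := hq1' n
        have e1 : γ = γ1 := cod_inj (ObA.p.inj (hn.symm.trans h6))
        have e2 : γ = γ2 := cod_inj (ObA.p.inj (hn.symm.trans h8))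
        subst e1
        subst e2
        exact cod_inj (ObA.p.inj (h7.symm.trans h9))
      have h6 : q = q' := by
        apply Cond.ext
        intro γ
        by_cases h7 : q γ = ⊥
        · by_cases h8 : q' γ = ⊥
          · rw [h7, h8]
          · obtain ⟨n, hn⟩ := hq2' γ h8
            exact key n γ hn
        · obtain ⟨n, hn⟩ := hq2 γ h7
          exact key n γ hn
      rw [← h6]
      exact hx
    · exact Eventually.of_forall fun x q hq1 hq2 => absurd ⟨q, hq1, hq2⟩ ho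
  filter_upwards [h1, h2, h3, h4, h5, hU.small, hU.mem' (ObA.p (cod ⊥))] with x h1 h2 h3 h4 h5 h6 h7
  let X : Set K := {a | ObA.p (cod a) ∈ x}
  have hX : ∃ b, b ∉ X := by
    by_contra hc
    push Not at hc
    have h8 : #K ≤ #x := by
      refine Cardinal.mk_le_of_injective (f := fun a : K => (⟨ObA.p (cod a), hc a⟩ : x)) ?_
      intro a b hab
      exact cod_inj (ObA.p.inj (congrArg Subtype.val hab))
    exact absurd h6 (not_lt.2 h8)
  obtain ⟨δ, hδ, hmin⟩ := WellFounded.has_min (wellFounded_lt (α := K)) Xᶜ hX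
  have hX' : ∀ a, a ∈ X ↔ a < δ := by
    intro a
    constructor
    · intro ha
      by_contra hc
      rcases (not_lt.1 hc).lt_or_eq with h8 | h8
      · exact hδ (h1 _ ha a rfl ⟨δ, h8⟩)
      · rw [← h8] at ha
        exact hδ ha
    · intro ha
      by_contra hc
      exact hmin a hc ha
  refine ⟨δ, ?_, ?_, ?_⟩
  · intro γ hγ
    exact (hX' _).1 (h2 _ ((hX' γ).2 hγ) γ rfl)
  · intro s hs
    obtain ⟨b, hb, hb'⟩ := h3 (fun n => ObA.p (cod (s n))) (fun n => (hX' _).2 (hs n)) s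
      fun _ => rfl
    exact ⟨b, (hX' b).1 hb, hb'⟩
  · intro q
    constructor
    · intro hq γ hγ
      have h8 := h4 _ hq q rfl ⟨γ, hγ⟩
      exact ⟨(hX' _).1 h8.1, (hX' _).1 h8.2⟩
    · intro hq
      have hbot : (⊥ : K) < δ := (hX' ⊥).1 h7
      obtain ⟨f, hf⟩ := (q.2.insert ⊥).exists_eq_range (insert_nonempty _ _)
      have hfx : ∀ n, f n < δ ∧ q (f n) < δ := by
        intro n
        have h8 : f n ∈ insert ⊥ {γ | q γ ≠ ⊥} := by
          rw [hf]
          exact ⟨n, rfl⟩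
        by_cases h9 : q (f n) = ⊥
        · rw [h9]
          refine ⟨?_, hbot⟩
          rcases h8 with h8 | h8
          · rw [h8]
            exact hbot
          · exact absurd h9 h8
        · exact hq _ h9
      refine h5 (Sum.elim (fun n => ObA.p (cod (f n))) fun n => ObA.p (cod (q (f n)))) ?_ q ?_ ?_
      · rintro (n | n)
        · exact (hX' _).2 (hfx n).1
        · exact (hX' _).2 (hfx n).2
      · intro n
        exact ⟨f n, rfl, rfl⟩
      · intro γ hγ
        have h8 : γ ∈ insert ⊥ {γ | q γ ≠ ⊥} := Or.inr hγ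
        rw [hf] at h8
        obtain ⟨n, hn⟩ := h8
        exact ⟨n, by simp [hn]⟩

end trace

omit [OrderBot K] in
/-- enumeration of a small subset of a well-order -/
theorem exists_enum [WellFoundedLT K] {Y : Type u} [LinearOrder Y] [WellFoundedLT Y] (S : Set Y)
    (hS : #S < #K) : ∃ (μ : K) (σ : Iio μ → Y), (∀ a b, a < b → σ a < σ b) ∧ range σ = S := by
  have h1 : Ordinal.type (fun a b : S => a < b) < Ordinal.type (fun a b : K => a < b) := by
    refine lt_of_lt_of_le ?_ (ord_le_type (fun a b : K => a < b))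
    rw [lt_ord, Ordinal.card_type]
    exact hS
  obtain ⟨f⟩ := Ordinal.type_lt_iff.1 h1
  have hf : ∀ b : K, b < f.top → ∃ a, f a = b := fun b hb => by
    have := f.mem_range_of_rel_top (b := b) hb
    exact this
  have hf' : ∀ a, f a < f.top := fun a => f.lt_top a
  choose g hg using hf
  refine ⟨f.top, fun b => (g b.1 b.2).1, ?_, ?_⟩
  · intro a b hab
    have h2 : g a.1 a.2 < g b.1 b.2 := by
      rw [← f.map_rel_iff]
      show f (g a.1 a.2) < f (g b.1 b.2)
      rw [hg _ a.2, hg _ b.2]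
      exact hab
    exact h2
  · apply Subset.antisymm
    · rintro _ ⟨b, rfl⟩
      exact (g b.1 b.2).2
    · intro a ha
      refine ⟨⟨f ⟨a, ha⟩, hf' _⟩, ?_⟩
      have h3 : g (f ⟨a, ha⟩) (hf' _) = ⟨a, ha⟩ := f.injective (hg _ (hf' _))
      show (g (f ⟨a, ha⟩) (hf' _)).1 = a
      rw [h3]

end Pool.Agent.W_MP_315f31_lc
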