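import Pool.Agent.W_MP_315f31_lc.D_h1.Ufil

/-!
# MP_315f31_lc, part (D) (helper1): closure of `U`-many `x` under Skolem functions, club filter
-/

universe u v w

open Cardinal Set Filter

namespace Pool.Agent.W_MP_315f31_lc

namespace IsFNU

variable {κ : Cardinal.{u}} {A : Type u} {U : Ultrafilter (Set A)}

theorem allN (hU : IsFNU κ U) (hκ : ℵ₀ < κ) {ψ : Set A → List A → Set A → Prop}
    (h : ∀ N l, ∀ᶠ x in (U : Filter (Set A)), ψ N l x) :
    ∀ᶠ x in (U : Filter (Set A)), ∀ N ⊆ x, N.Countable → ∀ l : List A, (∀ a ∈ l, a ∈ x) →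
      ψ N l x := by
  have hlt : ∀ {I : Type} [Countable I], Cardinal.lift.{u} #I < Cardinal.lift.{0} κ := by
    intro I _
    refine lt_of_le_of_lt (b := ℵ₀) ?_ ?_
    · simp
    · simpa using hκ
  have h1 : ∀ᶠ x in (U : Filter (Set A)), ∀ n : ℕ, ∀ s : Fin n ⊕ ℕ → A, (∀ i, s i ∈ x) →
      ψ (range fun k => s (Sum.inr k)) (List.ofFn fun i => s (Sum.inl i)) x :=
    hU.all_countable hκ fun n => hU.all_seq hlt fun s => h _ _
  have h2 : ∀ᶠ x in (U : Filter (Set A)), ∀ n : ℕ, ∀ s : Fin n → A, (∀ i, s i ∈ x) →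
      ψ ∅ (List.ofFn s) x :=
    hU.all_countable hκ fun n => hU.all_seq hlt fun s => h _ _
  filter_upwards [h1, h2] with x hx1 hx2
  intro N hN hc l hl
  rcases N.eq_empty_or_nonempty with rfl | hne
  · have h3 := hx2 l.length (fun i => l.get i) fun i => hl _ (List.get_mem _ _)
    rwa [List.ofFn_get] at h3
  · obtain ⟨f, rfl⟩ := hc.exists_eq_range hne
    have h3 := hx1 l.length (Sum.elim (fun i => l.get i) f) (by
      rintro (i | k)
      · exact hl _ (List.get_mem _ _)
      · exact hN ⟨k, rfl⟩)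
    simpa [List.ofFn_get] using h3

/-- Closure of `U`-many `x` under a Skolem function, whose arguments are countable subsets of `x`
and finite sequences of elements of `x`. -/
theorem clos (hU : IsFNU κ U) (hκ : ℵ₀ < κ) {S : Type v} {T : Type w} (inp : S → List A)
    (hinp : Function.Injective inp) (out : T → List A) (φ : Set A → S → T → Prop) :
    ∀ᶠ x in (U : Filter (Set A)), ∀ N ⊆ x, N.Countable → ∀ s : S, (∀ a ∈ inp s, a ∈ x) →
      (∃ t, φ N s t) → ∃ t, (∀ a ∈ out t, a ∈ x) ∧ φ N s t := by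
  have h1 : ∀ᶠ x in (U : Filter (Set A)), ∀ N ⊆ x, N.Countable → ∀ l : List A,
      (∀ a ∈ l, a ∈ x) → ∀ s, inp s = l → (∃ t, φ N s t) →
        ∃ t, (∀ a ∈ out t, a ∈ x) ∧ φ N s t := by
    refine hU.allN hκ (ψ := fun N l x => ∀ s, inp s = l → (∃ t, φ N s t) →
        ∃ t, (∀ a ∈ out t, a ∈ x) ∧ φ N s t) ?_
    intro N l
    by_cases h : ∃ s t, inp s = l ∧ φ N s t
    · obtain ⟨s, t, rfl, hst⟩ := h
      have h2 : ∀ᶠ x in (U : Filter (Set A)), ∀ i : Fin (out t).length, (out t).get i ∈ x :=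
        hU.all_countable hκ fun i => hU.mem' _
      filter_upwards [h2] with x hx s' hs' _
      obtain rfl := hinp hs'
      refine ⟨t, ?_, hst⟩
      intro a ha
      obtain ⟨i, rfl⟩ := List.get_of_mem ha
      exact hx i
    · refine Eventually.of_forall fun x s hs ⟨t, ht⟩ => absurd ⟨s, t, hs, ht⟩ h
  filter_upwards [h1] with x hx N hN hc s hs ht
  exact hx N hN hc (inp s) hs s rfl ht

/-- Closure under finitary Skolem functions. -/
theorem clos0 (hU : IsFNU κ U) (hκ : ℵ₀ < κ) {S : Type v} {T : Type w} (inp : S → List A)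
    (hinp : Function.Injective inp) (out : T → List A) (φ : S → T → Prop) :
    ∀ᶠ x in (U : Filter (Set A)), ∀ s : S, (∀ a ∈ inp s, a ∈ x) →
      (∃ t, φ s t) → ∃ t, (∀ a ∈ out t, a ∈ x) ∧ φ s t := by
  filter_upwards [hU.clos hκ inp hinp out fun _ => φ] with x hx
  exact hx ∅ (empty_subset _) countable_empty

end IsFNU

section club

variable {Z Z' : Type v}

theorem IsClub.mono_ctbl {S S' : Set (Set Z)} (h : IsClub S) (hS : ∀ N ∈ S, N.Countable → N ∈ S') :
    IsClub S' := by
  obtain ⟨F, hF⟩ := h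
  exact ⟨F, fun N hN hc => hS N (hF N hN hc) hN⟩

/-- The club filter of a small structure. -/
theorem club_pull (g : Z' → Z) (hg : Function.Injective g) (S : Set (Set Z))
    (F : ℕ → List Z → Option Z) (hF : ∀ N : Set Z, N.Countable → ClosedU F N → N ∈ S)
    (hx : ClosedU F (range g)) : IsClub {N' : Set Z' | g '' N' ∈ S} := by
  classical
  let inv : Z → Option Z' := fun z => if h : ∃ z', g z' = z then some h.choose else none
  have hinv : ∀ z', inv (g z') = some z' := by
    intro z'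
    have h : ∃ z'', g z'' = g z' := ⟨z', rfl⟩
    simp only [inv, dif_pos h]
    rw [hg h.choose_spec]
  refine ⟨fun n l => (F n (l.map g)).bind inv, ?_⟩
  intro N' hc hN'
  refine hF _ (hc.image g) ?_
  intro n l hl z hz
  have h1 : ∃ l' : List Z', (∀ z ∈ l', z ∈ N') ∧ l = l'.map g := by
    clear hz
    induction l with
    | nil => exact ⟨[], by simp, rfl⟩
    | cons a l ih =>
      obtain ⟨l', h1, h2⟩ := ih fun z hz => hl z (List.mem_cons_of_mem _ hz)
      obtain ⟨a', ha', rfl⟩ := hl a List.mem_cons_self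
      refine ⟨a' :: l', ?_, by simp [h2]⟩
      intro z hz
      rcases List.mem_cons.1 hz with rfl | hz
      · exact ha'
      · exact h1 z hz
  obtain ⟨l', hl', rfl⟩ := h1
  have h2 : z ∈ range g := hx n (l'.map g) (by
    intro z hz
    obtain ⟨a, -, rfl⟩ := List.mem_map.1 hz
    exact ⟨a, rfl⟩) z hz
  obtain ⟨z', rfl⟩ := h2
  refine ⟨z', ?_, rfl⟩
  refine hN' n l' hl' z' ?_
  show (F n (l'.map g)).bind inv = some z'
  rw [hz]
  exact hinv z'

/-- `U`-many `x` are closed under given partial functions. -/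
theorem IsFNU.closedU {κ : Cardinal.{u}} {A : Type u} {U : Ultrafilter (Set A)} (hU : IsFNU κ U)
    (hκ : ℵ₀ < κ) (F : ℕ → List A → Option A) :
    ∀ᶠ x in (U : Filter (Set A)), ClosedU F x := by
  have h1 := hU.all_countable hκ (I := ℕ) (φ := fun n x => ∀ l : List A, (∀ a ∈ l, a ∈ x) →
      (∃ t, F n l = some t) → ∃ t, (∀ a ∈ [t], a ∈ x) ∧ F n l = some t) fun n =>
    hU.clos0 hκ (S := List A) (T := A) (fun s => s) (fun _ _ h => h) (fun a => [a])
      (fun s t => F n s = some t)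
  filter_upwards [h1] with x hx n l hl z hz
  obtain ⟨t, ht, ht'⟩ := hx n l hl ⟨z, hz⟩
  rw [hz] at ht'
  obtain rfl := Option.some.inj ht'
  exact ht _ List.mem_cons_self

/-- The limit of club filters on `U`-many `x`. -/
theorem club_lift {κ : Cardinal.{u}} {A : Type u} {U : Ultrafilter (Set A)} (hU : IsFNU κ U)
    (hκ : ℵ₀ < κ) (S : Set A → Set (Set A))
    (h : ∀ᶠ x in (U : Filter (Set A)), ∃ F : ℕ → List A → Option A, ∀ N : Set A, N ⊆ x →
      N.Countable → (∀ n l, (∀ a ∈ l, a ∈ N) → ∀ z ∈ x, F n l = some z → z ∈ N) → N ∈ S x) :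
    IsClub {N : Set A | ∀ᶠ x in (U : Filter (Set A)), N ∈ S x} := by
  classical
  let Fx : Set A → ℕ → List A → Option A := fun x =>
    if h : ∃ F : ℕ → List A → Option A, ∀ N : Set A, N ⊆ x →
      N.Countable → (∀ n l, (∀ a ∈ l, a ∈ N) → ∀ z ∈ x, F n l = some z → z ∈ N) → N ∈ S x
    then h.choose else fun _ _ => none
  have hFx : ∀ᶠ x in (U : Filter (Set A)), ∀ N : Set A, N ⊆ x → N.Countable →
      (∀ n l, (∀ a ∈ l, a ∈ N) → ∀ z ∈ x, Fx x n l = some z → z ∈ N) → N ∈ S x := by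
    filter_upwards [h] with x hx
    simp only [Fx, dif_pos hx]
    exact hx.choose_spec
  let F : ℕ → List A → Option A := fun n l =>
    if h : ∃ z, ∀ᶠ x in (U : Filter (Set A)), Fx x n l = some z then some h.choose else none
  have hF : ∀ n l z, (∀ᶠ x in (U : Filter (Set A)), Fx x n l = some z) → F n l = some z := by
    intro n l z hz
    have h : ∃ z, ∀ᶠ x in (U : Filter (Set A)), Fx x n l = some z := ⟨z, hz⟩
    simp only [F, dif_pos h]
    obtain ⟨x, h1, h2⟩ := (h.choose_spec.and hz).exists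
    rw [← h1, h2]
  refine ⟨F, ?_⟩
  intro N hc hN
  have h1 : ∀ᶠ x in (U : Filter (Set A)), ∀ p : ℕ × {l : List N // True},
      ∀ z ∈ x, Fx x p.1 (p.2.1.map Subtype.val) = some z → z ∈ N := by
    have : Countable N := hc
    refine hU.all_countable hκ ?_
    rintro ⟨n, l, -⟩
    by_contra hcon
    rw [← Ultrafilter.eventually_not] at hcon
    have h2 : ∀ᶠ x in (U : Filter (Set A)), ∃ z ∈ x, Fx x n (l.map Subtype.val) = some z ∧
        z ∉ N := by
      filter_upwards [hcon] with x hx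
      push Not at hx
      exact hx
    obtain ⟨z, hz⟩ := hU.ex h2
    obtain ⟨x, -, -, hz1⟩ := hz.exists
    apply hz1
    refine hN n (l.map Subtype.val) ?_ z (hF n _ z (hz.mono fun x hx => hx.2.1))
    intro a ha
    obtain ⟨b, -, rfl⟩ := List.mem_map.1 ha
    exact b.2
  have h2 : ∀ᶠ x in (U : Filter (Set A)), N ⊆ x := by
    have : Countable N := hc
    filter_upwards [hU.all_countable hκ fun a : N => hU.mem' a.1] with x hx a ha
    exact hx ⟨a, ha⟩
  filter_upwards [h1, h2, hFx] with x hx1 hx2 hx3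
  refine hx3 N hx2 hc ?_
  intro n l hl z hz hz'
  refine hx1 (n, ⟨l.attach.map fun a => ⟨a.1, hl a.1 a.2⟩, trivial⟩) z hz ?_
  simpa using hz'

end club

end Pool.Agent.W_MP_315f31_lc
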