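import Pool.Agent.W_MP_315f31_lc.D_h1.Good

/-!
# MP_315f31_lc, part (D) (helper1): `Bad` reflects to `U`-many `x`, and back
-/

universe u v w

open Cardinal Set Filter

namespace Pool.Agent.W_MP_315f31_lc

variable {P Y W : Type u} {κ : Cardinal.{u}} {U : Ultrafilter (Set (ObA P Y))}

theorem mem_of_range {α β : Type*} {f : α → β} {S : Set β} (h : range f = S) (a : α) : f a ∈ S := by
  rw [← h]
  exact ⟨a, rfl⟩

theorem exists_of_range {α β : Type*} {f : α → β} {S : Set β} (h : range f = S) {b : β}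
    (hb : b ∈ S) : ∃ a, f a = b := by
  rw [← h] at hb
  exact hb

theorem Bad.down (hU : IsFNU κ U) (hκ : ℵ₀ < κ) (hW : #W < κ) {L : P → P → Prop}
    {ρ : Y → Y → P → Prop} {D : W → Y → P → Prop} {p0 : P} (h : Bad L ρ D p0) :
    ∀ᶠ x in (U : Filter (Set (ObA P Y))), ∀ (P' Y' : Type u) (i : P' → P) (j : Y' → Y),
      Function.Injective i → Function.Injective j → range i = {a | ObA.p a ∈ x} →
      range j = {b | ObA.y b ∈ x} → ∀ p0', i p0' = p0 →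
      Bad (fun a b => L (i a) (i b)) (fun a b q => ρ (j a) (j b) (i q))
        (fun w a q => D w (j a) (i q)) p0' := by
  have hreg := hU.clos0 hκ (S := Y × Y × P) (T := P) (fun s => [ObA.y s.1, ObA.y s.2.1, ObA.p s.2.2])
    (by rintro ⟨a, b, c⟩ ⟨a', b', c'⟩ h; simpa using h) (fun a => [ObA.p a])
    (fun s q => L q s.2.2 ∧ ∀ r, L r q → ¬ ρ s.1 s.2.1 r)
  obtain ⟨F, hF⟩ := h.tp
  have hFx := hU.closedU hκ F
  have hdns : ∀ᶠ x in (U : Filter (Set (ObA P Y))), ∀ w : W, ∀ s : P × Y,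
      (∀ a ∈ [ObA.p s.1, ObA.y s.2], a ∈ x) →
      (∃ t : P × Y, L t.1 s.1 ∧ ρ t.2 s.2 t.1 ∧ D w t.2 t.1) →
      ∃ t : P × Y, (∀ a ∈ [ObA.p t.1, ObA.y t.2], a ∈ x) ∧ L t.1 s.1 ∧ ρ t.2 s.2 t.1 ∧
        D w t.2 t.1 :=
    hU.all_small' hW fun w => hU.clos0 hκ (S := P × Y) (T := P × Y) (fun s => [ObA.p s.1, ObA.y s.2])
    (by rintro ⟨a, b⟩ ⟨a', b'⟩ h; simpa using h) (fun t => [ObA.p t.1, ObA.y t.2])
    (fun s t => L t.1 s.1 ∧ ρ t.2 s.2 t.1 ∧ D w t.2 t.1)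
  have hnof : ∀ᶠ x in (U : Filter (Set (ObA P Y))), ∀ oq ∈ x, ∀ q, oq = ObA.p q → L q p0 →
      ∀ F : Y → P → Prop, ¬
      ((∀ y p r, ObA.y y ∈ x → ObA.p (Y := Y) p ∈ x → ObA.p (Y := Y) r ∈ x → F y p → L r p →
          F y r) ∧
       (∀ y y' r, ObA.y y ∈ x → ObA.y y' ∈ x → ObA.p (Y := Y) r ∈ x → L r q → F y r → F y' r →
          ∃ r' z, ObA.p (Y := Y) r' ∈ x ∧ ObA.y z ∈ x ∧ L r' r ∧ F z r' ∧ ρ z y r' ∧ ρ z y' r') ∧
       (∀ w r, ObA.p (Y := Y) r ∈ x → L r q →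
          ∃ r' y, ObA.p (Y := Y) r' ∈ x ∧ ObA.y y ∈ x ∧ L r' r ∧ F y r' ∧ D w y r')) := by
    refine hU.all fun oq => ?_
    by_contra hcon
    rw [← Ultrafilter.eventually_not] at hcon
    obtain ⟨x0, hx0⟩ := hcon.exists
    push Not at hx0
    obtain ⟨q, rfl, hq, F0, -⟩ := hx0
    have h1 : ∀ᶠ x in (U : Filter (Set (ObA P Y))), ∃ F : Y → P → Prop,
      ((∀ y p r, ObA.y y ∈ x → ObA.p (Y := Y) p ∈ x → ObA.p (Y := Y) r ∈ x → F y p → L r p →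
          F y r) ∧
       (∀ y y' r, ObA.y y ∈ x → ObA.y y' ∈ x → ObA.p (Y := Y) r ∈ x → L r q → F y r → F y' r →
          ∃ r' z, ObA.p (Y := Y) r' ∈ x ∧ ObA.y z ∈ x ∧ L r' r ∧ F z r' ∧ ρ z y r' ∧ ρ z y' r') ∧
       (∀ w r, ObA.p (Y := Y) r ∈ x → L r q →
          ∃ r' y, ObA.p (Y := Y) r' ∈ x ∧ ObA.y y ∈ x ∧ L r' r ∧ F y r' ∧ D w y r')) := by
      filter_upwards [hcon] with x hx
      push Not at hx
      obtain ⟨q', hq', -, F, hF⟩ := hx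
      obtain rfl := ObA.p.inj hq'
      exact ⟨F, hF⟩
    classical
    let Fx : Set (ObA P Y) → Y → P → Prop := fun x =>
      if h : ∃ F : Y → P → Prop,
      ((∀ y p r, ObA.y y ∈ x → ObA.p (Y := Y) p ∈ x → ObA.p (Y := Y) r ∈ x → F y p → L r p →
          F y r) ∧
       (∀ y y' r, ObA.y y ∈ x → ObA.y y' ∈ x → ObA.p (Y := Y) r ∈ x → L r q → F y r → F y' r →
          ∃ r' z, ObA.p (Y := Y) r' ∈ x ∧ ObA.y z ∈ x ∧ L r' r ∧ F z r' ∧ ρ z y r' ∧ ρ z y' r') ∧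
       (∀ w r, ObA.p (Y := Y) r ∈ x → L r q →
          ∃ r' y, ObA.p (Y := Y) r' ∈ x ∧ ObA.y y ∈ x ∧ L r' r ∧ F y r' ∧ D w y r'))
      then h.choose else fun _ _ => False
    have h2 : ∀ᶠ x in (U : Filter (Set (ObA P Y))),
      ((∀ y p r, ObA.y y ∈ x → ObA.p (Y := Y) p ∈ x → ObA.p (Y := Y) r ∈ x → Fx x y p → L r p →
          Fx x y r) ∧
       (∀ y y' r, ObA.y y ∈ x → ObA.y y' ∈ x → ObA.p (Y := Y) r ∈ x → L r q → Fx x y r →
          Fx x y' r → ∃ r' z, ObA.p (Y := Y) r' ∈ x ∧ ObA.y z ∈ x ∧ L r' r ∧ Fx x z r' ∧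
            ρ z y r' ∧ ρ z y' r') ∧
       (∀ w r, ObA.p (Y := Y) r ∈ x → L r q →
          ∃ r' y, ObA.p (Y := Y) r' ∈ x ∧ ObA.y y ∈ x ∧ L r' r ∧ Fx x y r' ∧ D w y r')) := by
      filter_upwards [h1] with x hx
      simp only [Fx, dif_pos hx]
      exact hx.choose_spec
    let F : Y → P → Prop := fun y r => ∀ᶠ x in (U : Filter (Set (ObA P Y))), Fx x y r
    have h3 : ∀ᶠ x in (U : Filter (Set (ObA P Y))), ∀ oy ∈ x, ∀ or ∈ x, ∀ y r, oy = ObA.y y →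
        or = ObA.p r → (F y r ↔ Fx x y r) := by
      refine hU.all fun oy => hU.all fun or => ?_
      by_cases hyr : ∃ y r, oy = ObA.y y ∧ or = ObA.p r
      · obtain ⟨y, r, rfl, rfl⟩ := hyr
        by_cases h : F y r
        · have h' : ∀ᶠ x in (U : Filter (Set (ObA P Y))), Fx x y r := h
          filter_upwards [h'] with x hx y' r' hy' hr'
          obtain rfl := ObA.y.inj hy'
          obtain rfl := ObA.p.inj hr'
          exact ⟨fun _ => hx, fun _ => h⟩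
        · have h' : ¬ ∀ᶠ x in (U : Filter (Set (ObA P Y))), Fx x y r := h
          rw [← Ultrafilter.eventually_not] at h'
          filter_upwards [h'] with x hx y' r' hy' hr'
          obtain rfl := ObA.y.inj hy'
          obtain rfl := ObA.p.inj hr'
          exact ⟨fun h1 => absurd h1 h, fun h1 => absurd h1 hx⟩
      · exact Eventually.of_forall fun x y r hy hr => absurd ⟨y, r, hy, hr⟩ hyr
    refine h.nof q hq F ⟨?_, ?_, ?_⟩
    · intro y p r hyp hrp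
      obtain ⟨x, hx, hx', hy, hp, hr⟩ := (h2.and (h3.and ((hU.mem' (ObA.y y)).and
        ((hU.mem' (ObA.p p)).and (hU.mem' (ObA.p r)))))).exists
      exact (hx' _ hy _ hr y r rfl rfl).2 (hx.1 y p r hy hp hr
        ((hx' _ hy _ hp y p rfl rfl).1 hyp) hrp)
    · intro y y' r hrq hyr hyr'
      obtain ⟨x, hx, hx', hy, hy', hr⟩ := (h2.and (h3.and ((hU.mem' (ObA.y y)).and
        ((hU.mem' (ObA.y y')).and (hU.mem' (ObA.p r)))))).exists
      obtain ⟨r', z, hr', hz, k1, k2, k3⟩ := hx.2.1 y y' r hy hy' hr hrq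
        ((hx' _ hy _ hr y r rfl rfl).1 hyr) ((hx' _ hy' _ hr y' r rfl rfl).1 hyr')
      exact ⟨r', z, k1, (hx' _ hz _ hr' z r' rfl rfl).2 k2, k3⟩
    · intro w r hrq
      obtain ⟨x, hx, hx', hr⟩ := (h2.and (h3.and (hU.mem' (ObA.p r)))).exists
      obtain ⟨r', y, hr', hy, k1, k2, k3⟩ := hx.2.2 w r hr hrq
      exact ⟨r', y, k1, (hx' _ hy _ hr' y r' rfl rfl).2 k2, k3⟩
  obtain ⟨yy⟩ := h.ne
  filter_upwards [hU.good hκ L ρ, hreg, hFx, hdns, hnof, hU.mem' (ObA.y yy)] with x hgood hreg hFx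
    hdns hnof hyy
  intro P' Y' i j hi hj hri hrj p0' hp0
  subst hp0
  have hm : ∀ a, ObA.p (Y := Y) (i a) ∈ x := fun a => mem_of_range hri a
  have hn : ∀ a, ObA.y (P := P) (j a) ∈ x := fun a => mem_of_range hrj a
  have hm' : ∀ a, ObA.p (Y := Y) a ∈ x → ∃ a', i a' = a := fun a ha => exists_of_range hri ha
  have hn' : ∀ a, ObA.y (P := P) a ∈ x → ∃ a', j a' = a := fun a ha => exists_of_range hrj ha
  obtain ⟨g, hg, hgr⟩ := hgood.exists_emb i j hri hrj hi hj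
  refine ⟨?_, ⟨?_, ?_, ?_, ?_⟩, ?_, ⟨?_, ?_⟩, ?_⟩
  · obtain ⟨y', -⟩ := hn' yy hyy
    exact ⟨y'⟩
  · intro y p
    exact h.ord.refl _ _
  · intro a b c p
    exact h.ord.trans _ _ _ _
  · intro a b p q
    exact h.ord.mono _ _ _ _
  · intro a b p hp
    by_contra hcon
    have h1 : ∃ q, L q (i p) ∧ ∀ r, L r q → ¬ ρ (j a) (j b) r := by
      by_contra h2
      push Not at h2
      exact hcon (h.ord.reg _ _ _ h2)
    obtain ⟨t, ht, h2, h3⟩ := hreg (j a, j b, i p) (by simp [hm, hn]) h1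
    obtain ⟨t, rfl⟩ := hm' t (ht _ (by simp))
    obtain ⟨r, hr, hr'⟩ := hp t h2
    exact h3 _ hr hr'
  · -- tp
    have hcl := club_pull g hg.inj _ F hF (by rw [hgr]; exact hFx)
    refine hcl.mono_ctbl ?_
    intro N' hN' hc q' hq' hgen y0 hy0
    have hN'' := hN' (i q') hq' ((hg.gen N' q' hc).1 hgen) (j y0) ⟨_, hy0, hg.gy y0⟩
    obtain ⟨r', y1', h1, h2⟩ := hg.lbx N' q' y0 hc hN''
    exact ⟨r', y1', h1, (hg.lb N' r' y0 y1' hc).2 h2⟩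
  · intro w y p y' q h1 h2 h3
    exact h.dns.1 w (j y) (i p) (j y') (i q) h1 h2 h3
  · intro w p hp y
    obtain ⟨q, y', h1⟩ := h.dns.2 w (i p) hp (j y)
    obtain ⟨t, ht, h2⟩ := hdns w (i p, j y) (by simp [hm, hn]) ⟨(q, y'), h1⟩
    obtain ⟨a, ha⟩ := hm' t.1 (ht _ (by simp))
    obtain ⟨b, hb⟩ := hn' t.2 (ht _ (by simp))
    rw [← ha, ← hb] at h2
    exact ⟨a, b, h2⟩
  · intro q' hq' F' hF'
    refine hnof (ObA.p (i q')) (hm q') (i q') rfl hq'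
      (fun y r => ∃ y' r', j y' = y ∧ i r' = r ∧ F' y' r') ⟨?_, ?_, ?_⟩
    · rintro _ _ r hy hp hr ⟨y, p, rfl, rfl, hyp⟩ hrp
      obtain ⟨r, rfl⟩ := hm' r hr
      exact ⟨y, r, rfl, rfl, hF'.mono y p r hyp hrp⟩
    · rintro _ y2 _ hy hy2 hr hrq ⟨y, r, rfl, rfl, hyr⟩ ⟨y', r', rfl, h1, hyr'⟩
      obtain rfl := hi h1
      obtain ⟨r2, z, k1, k2, k3, k4⟩ := hF'.dir y y' r' hrq hyr hyr'
      exact ⟨i r2, j z, hm _, hn _, k1, ⟨z, r2, rfl, rfl, k2⟩, k3, k4⟩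
    · intro w r hr hrq
      obtain ⟨r, rfl⟩ := hm' r hr
      obtain ⟨r', y, k1, k2, k3⟩ := hF'.meet w r hrq
      exact ⟨i r', j y, hm _, hn _, k1, ⟨y, r', rfl, rfl, k2⟩, k3⟩

end Pool.Agent.W_MP_315f31_lc
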