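import Pool.Agent.W_MP_315f31_lc.D_h1.Clos

/-!
# MP_315f31_lc, part (D) (helper1): good substructures
-/

universe u v w

open Cardinal Set Filter

namespace Pool.Agent.W_MP_315f31_lc

variable {P Y P' Y' : Type u}

/-- `(P', Y')` with the induced structure is a good substructure of `(P, Y)`; `g` sends an object
of the small structure to the object of the large structure which it represents. -/
structure Emb (L : P → P → Prop) (ρ : Y → Y → P → Prop) (i : P' → P) (j : Y' → Y)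
    (g : ObA P' Y' → ObA P Y) : Prop where
  inj : Function.Injective g
  gp : ∀ a, g (.p a) = .p (i a)
  gy : ∀ b, g (.y b) = .y (j b)
  gd : ∀ D', ∃ D, g (.d D') = .d D ∧ D' = i ⁻¹' D
  gs : ∀ E', ∃ E, g (.s E') = .s E ∧ E' = {z | (i z.1, j z.2) ∈ E}
  gen : ∀ (N' : Set (ObA P' Y')) (q' : P'), N'.Countable →
    (GenA (fun a b => L (i a) (i b)) N' q' ↔ GenA L (g '' N') (i q'))
  lb : ∀ (N' : Set (ObA P' Y')) (r' : P') (y0 y1 : Y'), N'.Countable →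
    (LB (fun a b => L (i a) (i b)) (fun a b q => ρ (j a) (j b) (i q)) N' r' y0 y1 ↔
      LB L ρ (g '' N') (i r') (j y0) (j y1))
  lbx : ∀ (N' : Set (ObA P' Y')) (q' : P') (y0 : Y'), N'.Countable →
    (∃ r y1, L r (i q') ∧ LB L ρ (g '' N') r (j y0) y1) →
      ∃ r' y1', L (i r') (i q') ∧ LB L ρ (g '' N') (i r') (j y0) (j y1')

variable {L : P → P → Prop} {ρ : Y → Y → P → Prop}

/-- The closure properties of a set of objects used in `exists_emb`. -/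
structure Good (L : P → P → Prop) (ρ : Y → Y → P → Prop) (x : Set (ObA P Y)) : Prop where
  fulld : ∀ D' : Set P, ∃ D, ObA.d D ∈ x ∧ ∀ a, ObA.p a ∈ x → (a ∈ D ↔ a ∈ D')
  fulls : ∀ E' : Set (P × Y), ∃ E, ObA.s E ∈ x ∧
    ∀ a b, ObA.p a ∈ x → ObA.y b ∈ x → ((a, b) ∈ E ↔ (a, b) ∈ E')
  uniqd : ∀ D1 D2 : Set P, ObA.d D1 ∈ x → ObA.d D2 ∈ x →
    (∀ a, ObA.p a ∈ x → (a ∈ D1 ↔ a ∈ D2)) → D1 = D2
  uniqs : ∀ E1 E2 : Set (P × Y), ObA.s E1 ∈ x → ObA.s E2 ∈ x →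
    (∀ a b, ObA.p a ∈ x → ObA.y b ∈ x → ((a, b) ∈ E1 ↔ (a, b) ∈ E2)) → E1 = E2
  d1 : ∀ D : Set P, ObA.d D ∈ x →
    (∃ p q, p ∈ D ∧ L q p ∧ q ∉ D) → ∃ p q, ObA.p p ∈ x ∧ ObA.p q ∈ x ∧ p ∈ D ∧ L q p ∧ q ∉ D
  d2 : ∀ D : Set P, ObA.d D ∈ x →
    (∃ p, ∀ q, ¬ (L q p ∧ q ∈ D)) → ∃ p, ObA.p p ∈ x ∧ ∀ q, ¬ (L q p ∧ q ∈ D)
  d3 : ∀ (D : Set P) (p : P), ObA.d D ∈ x → ObA.p p ∈ x →
    (∃ q, L q p ∧ q ∈ D) → ∃ q, ObA.p q ∈ x ∧ L q p ∧ q ∈ D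
  s1 : ∀ E : Set (P × Y), ObA.s E ∈ x →
    (∃ p y p' y', (p, y) ∈ E ∧ L p' p ∧ ρ y' y p' ∧ (p', y') ∉ E) →
      ∃ p y p' y', ObA.p p ∈ x ∧ ObA.y y ∈ x ∧ ObA.p p' ∈ x ∧ ObA.y y' ∈ x ∧
        (p, y) ∈ E ∧ L p' p ∧ ρ y' y p' ∧ (p', y') ∉ E
  s2 : ∀ E : Set (P × Y), ObA.s E ∈ x →
    (∃ p y, ∀ p' y', ¬ (L p' p ∧ ρ y' y p' ∧ (p', y') ∈ E)) →
      ∃ p y, ObA.p p ∈ x ∧ ObA.y y ∈ x ∧ ∀ p' y', ¬ (L p' p ∧ ρ y' y p' ∧ (p', y') ∈ E)
  s3 : ∀ (E : Set (P × Y)) (p : P) (y : Y), ObA.s E ∈ x → ObA.p p ∈ x → ObA.y y ∈ x →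
    (∃ p' y', L p' p ∧ ρ y' y p' ∧ (p', y') ∈ E) →
      ∃ p' y', ObA.p p' ∈ x ∧ ObA.y y' ∈ x ∧ L p' p ∧ ρ y' y p' ∧ (p', y') ∈ E
  g1 : ∀ N ⊆ x, N.Countable → ∀ (D : Set P) (q : P), ObA.d D ∈ x → ObA.p q ∈ x →
    (∃ q', L q' q ∧ ∀ r, L r q' → ∀ p, p ∈ D → ObA.p p ∈ N → ¬ L r p) →
      ∃ q', ObA.p q' ∈ x ∧ L q' q ∧ ∀ r, L r q' → ∀ p, p ∈ D → ObA.p p ∈ N → ¬ L r p
  g2 : ∀ p q : P, ObA.p p ∈ x → ObA.p q ∈ x → (∃ r, L r p ∧ L r q) →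
    ∃ r, ObA.p r ∈ x ∧ L r p ∧ L r q
  l1 : ∀ N ⊆ x, N.Countable → ∀ (E : Set (P × Y)) (r : P) (y1 : Y), ObA.s E ∈ x →
    ObA.p r ∈ x → ObA.y y1 ∈ x →
    (∃ r', L r' r ∧ ∀ r'', L r'' r' → ∀ p y, (p, y) ∈ E → ObA.p p ∈ N → ObA.y y ∈ N →
      ¬ (L r'' p ∧ ρ y1 y r'')) →
      ∃ r', ObA.p r' ∈ x ∧ L r' r ∧ ∀ r'', L r'' r' → ∀ p y, (p, y) ∈ E → ObA.p p ∈ N →
        ObA.y y ∈ N → ¬ (L r'' p ∧ ρ y1 y r'')
  l2 : ∀ (r p : P) (y y1 : Y), ObA.p r ∈ x → ObA.p p ∈ x → ObA.y y ∈ x → ObA.y y1 ∈ x →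
    (∃ r', L r' r ∧ L r' p ∧ ρ y1 y r') → ∃ r', ObA.p r' ∈ x ∧ L r' r ∧ L r' p ∧ ρ y1 y r'
  l3 : ∀ N ⊆ x, N.Countable → ∀ (q : P) (y0 : Y), ObA.p q ∈ x → ObA.y y0 ∈ x →
    (∃ r y1, L r q ∧ LB L ρ N r y0 y1) →
      ∃ r y1, ObA.p r ∈ x ∧ ObA.y y1 ∈ x ∧ L r q ∧ LB L ρ N r y0 y1

theorem Good.dop {x : Set (ObA P Y)} (hx : Good L ρ x) (i : P' → P)
    (hi : range i = {a | ObA.p a ∈ x}) (D : Set P) (hD : ObA.d D ∈ x) :
    DOp (fun a b => L (i a) (i b)) (i ⁻¹' D) ↔ DOp L D := by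
  have hm : ∀ a, ObA.p (Y := Y) (i a) ∈ x := fun a => by
    have : i a ∈ range i := ⟨a, rfl⟩
    rwa [hi] at this
  have hm' : ∀ a, ObA.p (Y := Y) a ∈ x → ∃ a', i a' = a := fun a ha => by
    have : a ∈ {a | ObA.p a ∈ x} := ha
    rwa [← hi] at this
  constructor
  · rintro ⟨h1, h2⟩
    constructor
    · intro p q hp hq
      by_contra hc
      obtain ⟨p, q, hp1, hq1, h3, h4, h5⟩ := hx.d1 D hD ⟨p, q, hp, hq, hc⟩
      obtain ⟨p, rfl⟩ := hm' _ hp1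
      obtain ⟨q, rfl⟩ := hm' _ hq1
      exact h5 (h1 p q h3 h4)
    · intro p
      by_contra hc
      obtain ⟨p, hp, h3⟩ := hx.d2 D hD ⟨p, fun q hq => hc ⟨q, hq⟩⟩
      obtain ⟨p, rfl⟩ := hm' _ hp
      obtain ⟨q, hq⟩ := h2 p
      exact h3 _ hq
  · rintro ⟨h1, h2⟩
    constructor
    · intro p q hp hq
      exact h1 (i p) (i q) hp hq
    · intro p
      obtain ⟨q, hq, h3⟩ := hx.d3 D (i p) hD (hm p) (h2 (i p))
      obtain ⟨q, rfl⟩ := hm' _ hq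
      exact ⟨q, h3⟩

theorem Good.dos {x : Set (ObA P Y)} (hx : Good L ρ x) (i : P' → P) (j : Y' → Y)
    (hi : range i = {a | ObA.p a ∈ x}) (hj : range j = {a | ObA.y a ∈ x})
    (E : Set (P × Y)) (hE : ObA.s E ∈ x) :
    DOs (fun a b => L (i a) (i b)) (fun a b q => ρ (j a) (j b) (i q))
      {z | (i z.1, j z.2) ∈ E} ↔ DOs L ρ E := by
  have hm : ∀ a, ObA.p (Y := Y) (i a) ∈ x := fun a => by
    have : i a ∈ range i := ⟨a, rfl⟩
    rwa [hi] at this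
  have hm' : ∀ a, ObA.p (Y := Y) a ∈ x → ∃ a', i a' = a := fun a ha => by
    have : a ∈ {a | ObA.p a ∈ x} := ha
    rwa [← hi] at this
  have hn : ∀ a, ObA.y (P := P) (j a) ∈ x := fun a => by
    have : j a ∈ range j := ⟨a, rfl⟩
    rwa [hj] at this
  have hn' : ∀ a, ObA.y (P := P) a ∈ x → ∃ a', j a' = a := fun a ha => by
    have : a ∈ {a | ObA.y a ∈ x} := ha
    rwa [← hj] at this
  constructor
  · rintro ⟨h1, h2⟩
    constructor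
    · intro p y p' y' hp hq hr
      by_contra hc
      obtain ⟨p, y, p', y', k1, k2, k3, k4, h3, h4, h5, h6⟩ :=
        hx.s1 E hE ⟨p, y, p', y', hp, hq, hr, hc⟩
      obtain ⟨p, rfl⟩ := hm' _ k1
      obtain ⟨y, rfl⟩ := hn' _ k2
      obtain ⟨p', rfl⟩ := hm' _ k3
      obtain ⟨y', rfl⟩ := hn' _ k4
      exact h6 (h1 p y p' y' h3 h4 h5)
    · intro p y
      by_contra hc
      obtain ⟨p, y, k1, k2, h3⟩ := hx.s2 E hE ⟨p, y, fun p' y' hq => hc ⟨p', y', hq⟩⟩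
      obtain ⟨p, rfl⟩ := hm' _ k1
      obtain ⟨y, rfl⟩ := hn' _ k2
      obtain ⟨p', y', hq⟩ := h2 p y
      exact h3 _ _ hq
  · rintro ⟨h1, h2⟩
    constructor
    · intro p y p' y' hp hq hr
      exact h1 (i p) (j y) (i p') (j y') hp hq hr
    · intro p y
      obtain ⟨p', y', k1, k2, h3⟩ := hx.s3 E (i p) (j y) hE (hm p) (hn y) (h2 (i p) (j y))
      obtain ⟨p', rfl⟩ := hm' _ k1
      obtain ⟨y', rfl⟩ := hn' _ k2
      exact ⟨p', y', h3⟩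

theorem Good.exists_emb {x : Set (ObA P Y)} (hx : Good L ρ x) (i : P' → P) (j : Y' → Y)
    (hi : range i = {a | ObA.p a ∈ x}) (hj : range j = {a | ObA.y a ∈ x})
    (hi' : Function.Injective i) (hj' : Function.Injective j) :
    ∃ g, Emb L ρ i j g ∧ range g = x := by
  have hm : ∀ a, ObA.p (Y := Y) (i a) ∈ x := fun a => by
    have : i a ∈ range i := ⟨a, rfl⟩
    rwa [hi] at this
  have hm' : ∀ a, ObA.p (Y := Y) a ∈ x → ∃ a', i a' = a := fun a ha => by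
    have : a ∈ {a | ObA.p a ∈ x} := ha
    rwa [← hi] at this
  have hn : ∀ a, ObA.y (P := P) (j a) ∈ x := fun a => by
    have : j a ∈ range j := ⟨a, rfl⟩
    rwa [hj] at this
  have hn' : ∀ a, ObA.y (P := P) a ∈ x → ∃ a', j a' = a := fun a ha => by
    have : a ∈ {a | ObA.y a ∈ x} := ha
    rwa [← hj] at this
  have h1 : ∀ D' : Set P', ∃ D, ObA.d D ∈ x ∧ D' = i ⁻¹' D := by
    intro D'
    obtain ⟨D, hD, hD'⟩ := hx.fulld (i '' D')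
    refine ⟨D, hD, ?_⟩
    ext a
    constructor
    · intro ha
      exact (hD' _ (hm a)).2 ⟨a, ha, rfl⟩
    · intro ha
      obtain ⟨b, hb, hb'⟩ := (hD' _ (hm a)).1 ha
      rw [← hi' hb']
      exact hb
  have h2 : ∀ E' : Set (P' × Y'), ∃ E, ObA.s E ∈ x ∧ E' = {z | (i z.1, j z.2) ∈ E} := by
    intro E'
    obtain ⟨E, hE, hE'⟩ := hx.fulls ((fun z : P' × Y' => (i z.1, j z.2)) '' E')
    refine ⟨E, hE, ?_⟩
    ext ⟨a, b⟩
    constructor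
    · intro ha
      exact (hE' _ _ (hm a) (hn b)).2 ⟨(a, b), ha, rfl⟩
    · intro ha
      obtain ⟨⟨a', b'⟩, hb, hb'⟩ := (hE' _ _ (hm a) (hn b)).1 ha
      have h3 := congrArg Prod.fst hb'
      have h4 := congrArg Prod.snd hb'
      have h5 : a' = a := hi' h3
      have h6 : b' = b := hj' h4
      rw [← h5, ← h6]
      exact hb
  choose fd hfd hfd' using h1
  choose fs hfs hfs' using h2
  let g : ObA P' Y' → ObA P Y := fun o => match o with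
    | .p a => .p (i a)
    | .y b => .y (j b)
    | .d D => .d (fd D)
    | .s E => .s (fs E)
  have hg : ∀ o, g o ∈ x := by
    rintro (a | b | D | E)
    · exact hm a
    · exact hn b
    · exact hfd D
    · exact hfs E
  have hgr : range g = x := by
    apply Subset.antisymm
    · rintro _ ⟨o, rfl⟩
      exact hg o
    · rintro (a | b | D | E) ho
      · obtain ⟨a, rfl⟩ := hm' a ho
        exact ⟨.p a, rfl⟩
      · obtain ⟨b, rfl⟩ := hn' b ho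
        exact ⟨.y b, rfl⟩
      · refine ⟨.d (i ⁻¹' D), ?_⟩
        show ObA.d (fd (i ⁻¹' D)) = ObA.d D
        congr 1
        refine hx.uniqd _ _ (hfd _) ho ?_
        intro a ha
        obtain ⟨a, rfl⟩ := hm' a ha
        have := hfd' (i ⁻¹' D)
        have h3 : a ∈ i ⁻¹' D ↔ a ∈ i ⁻¹' (fd (i ⁻¹' D)) := by rw [← this]
        exact h3.symm
      · refine ⟨.s {z | (i z.1, j z.2) ∈ E}, ?_⟩
        show ObA.s (fs {z | (i z.1, j z.2) ∈ E}) = ObA.s E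
        congr 1
        refine hx.uniqs _ _ (hfs _) ho ?_
        intro a b ha hb
        obtain ⟨a, rfl⟩ := hm' a ha
        obtain ⟨b, rfl⟩ := hn' b hb
        have := hfs' {z | (i z.1, j z.2) ∈ E}
        have h3 : (a, b) ∈ {z : P' × Y' | (i z.1, j z.2) ∈ E} ↔
          (a, b) ∈ {z : P' × Y' | (i z.1, j z.2) ∈ fs {z | (i z.1, j z.2) ∈ E}} := by
            rw [← this]
        exact h3.symm
  have hinj : Function.Injective g := by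
    rintro (a | b | D | E) (a' | b' | D' | E') h <;> simp only [g] at h <;> try cases h
    all_goals first
      | (have h3 := ObA.p.inj h; rw [hi' h3])
      | (have h3 := ObA.y.inj h; rw [hj' h3])
      | (have h3 := ObA.d.inj h; rw [hfd' D, hfd' D', h3])
      | (have h3 := ObA.s.inj h; rw [hfs' E, hfs' E', h3])
  have hpm : ∀ (N' : Set (ObA P' Y')) a, ObA.p (i a) ∈ g '' N' ↔ ObA.p a ∈ N' := by
    intro N' a
    exact hinj.mem_set_image (a := ObA.p a)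
  have hym : ∀ (N' : Set (ObA P' Y')) a, ObA.y (j a) ∈ g '' N' ↔ ObA.y a ∈ N' := by
    intro N' a
    exact hinj.mem_set_image (a := ObA.y a)
  have hsub : ∀ N' : Set (ObA P' Y'), g '' N' ⊆ x := by
    rintro N' _ ⟨o, -, rfl⟩
    exact hg o
  refine ⟨g, ⟨hinj, fun _ => rfl, fun _ => rfl, fun D' => ⟨fd D', rfl, hfd' D'⟩,
    fun E' => ⟨fs E', rfl, hfs' E'⟩, ?_, ?_, ?_⟩, hgr⟩
  · -- gen
    intro N' q' hc
    constructor
    · intro h D hD hDO q2 hq2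
      have hDx : ObA.d D ∈ x := hsub N' hD
      obtain ⟨o, ho, ho'⟩ := hD
      have h3 : ∃ D', o = ObA.d D' ∧ fd D' = D := by
        rcases o with a | b | D' | E <;> simp only [g] at ho' <;> try cases ho'
        exact ⟨D', rfl, rfl⟩
      obtain ⟨D', rfl, rfl⟩ := h3
      by_contra hcon
      obtain ⟨q3, hq3, h4, h5⟩ := hx.g1 (g '' N') (hsub N') (hc.image g) (fd D') (i q') hDx (hm q')
        ⟨q2, hq2, fun r hr p hp hpN hrp => hcon ⟨r, hr, p, hp, hpN, hrp⟩⟩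
      obtain ⟨q3, rfl⟩ := hm' _ hq3
      have hDO' : DOp (fun a b => L (i a) (i b)) D' := by
        rw [hfd' D']
        exact (hx.dop i hi _ hDx).2 hDO
      obtain ⟨r, hr, p, hp, hpN, hrp⟩ := h D' ho hDO' q3 h4
      rw [hfd' D'] at hp
      exact h5 (i r) hr (i p) hp ((hpm N' p).2 hpN) hrp
    · intro h D' hD' hDO' q2 hq2
      have hDO : DOp L (fd D') := by
        rw [hfd' D'] at hDO'
        exact (hx.dop i hi _ (hfd D')).1 hDO'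
      obtain ⟨r, hr, p, hp, hpN, hrp⟩ := h (fd D') ⟨.d D', hD', rfl⟩ hDO (i q2) hq2
      have hpx := hsub N' hpN
      obtain ⟨p, rfl⟩ := hm' _ hpx
      obtain ⟨r1, hr1, h3, h4⟩ := hx.g2 (i q2) (i p) (hm _) (hm _) ⟨r, hr, hrp⟩
      obtain ⟨r1, rfl⟩ := hm' _ hr1
      refine ⟨r1, h3, p, ?_, (hpm N' p).1 hpN, h4⟩
      rw [hfd' D']
      exact hp
  · -- lb
    intro N' r' y0 y1 hc
    constructor
    · rintro ⟨h0, h⟩
      refine ⟨h0, ?_⟩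
      intro E hE hEO r2 hr2
      have hEx : ObA.s E ∈ x := hsub N' hE
      obtain ⟨o, ho, ho'⟩ := hE
      have h3 : ∃ E', o = ObA.s E' ∧ fs E' = E := by
        rcases o with a | b | D' | E' <;> simp only [g] at ho' <;> try cases ho'
        exact ⟨E', rfl, rfl⟩
      obtain ⟨E', rfl, rfl⟩ := h3
      by_contra hcon
      obtain ⟨r3, hr3, h4, h5⟩ := hx.l1 (g '' N') (hsub N') (hc.image g) (fs E') (i r') (j y1) hEx
        (hm r') (hn y1) ⟨r2, hr2, fun r hr p y hp hpN hyN hrp => hcon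
          ⟨r, hr, p, y, hp, hpN, hyN, hrp⟩⟩
      obtain ⟨r3, rfl⟩ := hm' _ hr3
      have hEO' : DOs (fun a b => L (i a) (i b)) (fun a b q => ρ (j a) (j b) (i q)) E' := by
        rw [hfs' E']
        exact (hx.dos i j hi hj _ hEx).2 hEO
      obtain ⟨r, hr, p, y, hp, hpN, hyN, hrp⟩ := h E' ho hEO' r3 h4
      rw [hfs' E'] at hp
      exact h5 (i r) hr (i p) (j y) hp ((hpm N' p).2 hpN) ((hym N' y).2 hyN) hrp
    · rintro ⟨h0, h⟩
      refine ⟨h0, ?_⟩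
      intro E' hE' hEO' r2 hr2
      have hEO : DOs L ρ (fs E') := by
        rw [hfs' E'] at hEO'
        exact (hx.dos i j hi hj _ (hfs E')).1 hEO'
      obtain ⟨r, hr, p, y, hp, hpN, hyN, hrp, hry⟩ := h (fs E') ⟨.s E', hE', rfl⟩ hEO (i r2) hr2
      have hpx := hsub N' hpN
      obtain ⟨p, rfl⟩ := hm' _ hpx
      have hyx := hsub N' hyN
      obtain ⟨y, rfl⟩ := hn' _ hyx
      obtain ⟨r1, hr1, h3, h4, h5⟩ := hx.l2 (i r2) (i p) (j y) (j y1) (hm _) (hm _) (hn _) (hn _)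
        ⟨r, hr, hrp, hry⟩
      obtain ⟨r1, rfl⟩ := hm' _ hr1
      refine ⟨r1, h3, p, y, ?_, (hpm N' p).1 hpN, (hym N' y).1 hyN, h4, h5⟩
      rw [hfs' E']
      exact hp
  · -- lbx
    intro N' q' y0 hc h
    obtain ⟨r, y1, hr, hy1, h1, h2⟩ := hx.l3 (g '' N') (hsub N') (hc.image g) (i q') (j y0) (hm _)
      (hn _) h
    obtain ⟨r, rfl⟩ := hm' _ hr
    obtain ⟨y1, rfl⟩ := hn' _ hy1
    exact ⟨r, y1, h1, h2⟩

end Pool.Agent.W_MP_315f31_lc
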