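import Pool.Agent.W_MP_315f31_lc.D_h1.Emb

/-!
# MP_315f31_lc, part (D) (helper1): `U`-many `x` are good
-/

universe u v w

open Cardinal Set Filter

namespace Pool.Agent.W_MP_315f31_lc

variable {P Y : Type u} {κ : Cardinal.{u}} {U : Ultrafilter (Set (ObA P Y))}

theorem IsFNU.good (hU : IsFNU κ U) (hκ : ℵ₀ < κ) (L : P → P → Prop) (ρ : Y → Y → P → Prop) :
    ∀ᶠ x in (U : Filter (Set (ObA P Y))), Good L ρ x := by
  have fulld : ∀ᶠ x in (U : Filter (Set (ObA P Y))),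
      ∀ D' : Set P, ∃ D, ObA.d D ∈ x ∧ ∀ a, ObA.p a ∈ x → (a ∈ D ↔ a ∈ D') := by
    by_contra hcon
    rw [← Ultrafilter.eventually_not] at hcon
    obtain ⟨x0, hx0⟩ := hcon.exists
    push Not at hx0
    classical
    let W : Set (ObA P Y) → Set P := fun x =>
      if h : ∃ D' : Set P, ¬ ∃ D, ObA.d D ∈ x ∧ ∀ a, ObA.p a ∈ x → (a ∈ D ↔ a ∈ D')
      then h.choose else ∅
    have h1 := hU.ex_set fun x => {o | ∃ a, o = ObA.p a ∧ a ∈ W x}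
    have h2 := hU.mem' (ObA.d {a | ∀ᶠ x' in (U : Filter (Set (ObA P Y))), a ∈ W x'})
    obtain ⟨x, hx1, hx2, hx3⟩ := (h1.and (h2.and hcon)).exists
    have h3 : ∃ D' : Set P, ¬ ∃ D, ObA.d D ∈ x ∧ ∀ a, ObA.p a ∈ x → (a ∈ D ↔ a ∈ D') := by
      push Not
      push Not at hx3
      exact hx3
    have h4 : W x = h3.choose := by simp only [W, dif_pos h3]
    have h5 := h3.choose_spec
    rw [← h4] at h5
    apply h5
    refine ⟨_, hx2, ?_⟩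
    intro a ha
    have h6 := hx1 (ObA.p a) ha
    simp only [mem_ofPred_eq, ObA.p.injEq, exists_eq_left'] at h6
    exact h6.symm
  have fulls : ∀ᶠ x in (U : Filter (Set (ObA P Y))), ∀ E' : Set (P × Y), ∃ E, ObA.s E ∈ x ∧
      ∀ a b, ObA.p a ∈ x → ObA.y b ∈ x → ((a, b) ∈ E ↔ (a, b) ∈ E') := by
    by_contra hcon
    rw [← Ultrafilter.eventually_not] at hcon
    classical
    let W : Set (ObA P Y) → Set (P × Y) := fun x =>
      if h : ∃ E' : Set (P × Y), ¬ ∃ E, ObA.s E ∈ x ∧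
        ∀ a b, ObA.p a ∈ x → ObA.y b ∈ x → ((a, b) ∈ E ↔ (a, b) ∈ E')
      then h.choose else ∅
    let W' : Set (P × Y) := {z | ∀ᶠ x' in (U : Filter (Set (ObA P Y))), z ∈ W x'}
    have h1 : ∀ᶠ x in (U : Filter (Set (ObA P Y))), ∀ oa ∈ x, ∀ ob ∈ x, ∀ a b, oa = ObA.p a →
        ob = ObA.y b → ((a, b) ∈ W x ↔ (a, b) ∈ W') := by
      refine hU.all fun oa => hU.all fun ob => ?_
      by_cases hab : ∃ a b, oa = ObA.p a ∧ ob = ObA.y b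
      · obtain ⟨a, b, rfl, rfl⟩ := hab
        by_cases h : (a, b) ∈ W'
        · have h' : ∀ᶠ x' in (U : Filter (Set (ObA P Y))), (a, b) ∈ W x' := h
          filter_upwards [h'] with x hx a' b' ha hb
          obtain rfl := ObA.p.inj ha
          obtain rfl := ObA.y.inj hb
          exact ⟨fun _ => h, fun _ => hx⟩
        · have h' : ¬ ∀ᶠ x' in (U : Filter (Set (ObA P Y))), (a, b) ∈ W x' := h
          rw [← Ultrafilter.eventually_not] at h'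
          filter_upwards [h'] with x hx a' b' ha hb
          obtain rfl := ObA.p.inj ha
          obtain rfl := ObA.y.inj hb
          exact ⟨fun h1 => absurd h1 hx, fun h1 => absurd h1 h⟩
      · exact Eventually.of_forall fun x a b ha hb => absurd ⟨a, b, ha, hb⟩ hab
    have h2 := hU.mem' (ObA.s W')
    obtain ⟨x, hx1, hx2, hx3⟩ := (h1.and (h2.and hcon)).exists
    have h3 : ∃ E' : Set (P × Y), ¬ ∃ E, ObA.s E ∈ x ∧
        ∀ a b, ObA.p a ∈ x → ObA.y b ∈ x → ((a, b) ∈ E ↔ (a, b) ∈ E') := by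
      push Not
      push Not at hx3
      exact hx3
    have h4 : W x = h3.choose := by simp only [W, dif_pos h3]
    have h5 := h3.choose_spec
    rw [← h4] at h5
    apply h5
    refine ⟨_, hx2, ?_⟩
    intro a b ha hb
    exact (hx1 _ ha _ hb a b rfl rfl).symm
  have uniqd := hU.clos0 hκ (S := Set P × Set P) (T := P) (fun s => [ObA.d s.1, ObA.d s.2])
    (by rintro ⟨a, b⟩ ⟨a', b'⟩ h; simpa using h) (fun a => [ObA.p a])
    (fun s a => ¬ (a ∈ s.1 ↔ a ∈ s.2))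
  have uniqs := hU.clos0 hκ (S := Set (P × Y) × Set (P × Y)) (T := P × Y)
    (fun s => [ObA.s s.1, ObA.s s.2])
    (by rintro ⟨a, b⟩ ⟨a', b'⟩ h; simpa using h) (fun a => [ObA.p a.1, ObA.y a.2])
    (fun s a => ¬ (a ∈ s.1 ↔ a ∈ s.2))
  have d1 := hU.clos0 hκ (S := Set P) (T := P × P) (fun s => [ObA.d s])
    (by rintro a a' h; simpa using h) (fun a => [ObA.p a.1, ObA.p a.2])
    (fun D z => z.1 ∈ D ∧ L z.2 z.1 ∧ z.2 ∉ D)
  have d2 := hU.clos0 hκ (S := Set P) (T := P) (fun s => [ObA.d s])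
    (by rintro a a' h; simpa using h) (fun a => [ObA.p a])
    (fun D p => ∀ q, ¬ (L q p ∧ q ∈ D))
  have d3 := hU.clos0 hκ (S := Set P × P) (T := P) (fun s => [ObA.d s.1, ObA.p s.2])
    (by rintro ⟨a, b⟩ ⟨a', b'⟩ h; simpa using h) (fun a => [ObA.p a])
    (fun s q => L q s.2 ∧ q ∈ s.1)
  have s1 := hU.clos0 hκ (S := Set (P × Y)) (T := P × Y × P × Y) (fun s => [ObA.s s])
    (by rintro a a' h; simpa using h)
    (fun a => [ObA.p a.1, ObA.y a.2.1, ObA.p a.2.2.1, ObA.y a.2.2.2])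
    (fun E z => (z.1, z.2.1) ∈ E ∧ L z.2.2.1 z.1 ∧ ρ z.2.2.2 z.2.1 z.2.2.1 ∧
      (z.2.2.1, z.2.2.2) ∉ E)
  have s2 := hU.clos0 hκ (S := Set (P × Y)) (T := P × Y) (fun s => [ObA.s s])
    (by rintro a a' h; simpa using h) (fun a => [ObA.p a.1, ObA.y a.2])
    (fun E z => ∀ p' y', ¬ (L p' z.1 ∧ ρ y' z.2 p' ∧ (p', y') ∈ E))
  have s3 := hU.clos0 hκ (S := Set (P × Y) × P × Y) (T := P × Y)
    (fun s => [ObA.s s.1, ObA.p s.2.1, ObA.y s.2.2])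
    (by rintro ⟨a, b, c⟩ ⟨a', b', c'⟩ h; simpa using h) (fun a => [ObA.p a.1, ObA.y a.2])
    (fun s z => L z.1 s.2.1 ∧ ρ z.2 s.2.2 z.1 ∧ (z.1, z.2) ∈ s.1)
  have g1 := hU.clos hκ (S := Set P × P) (T := P)
    (fun s => [ObA.d s.1, ObA.p s.2])
    (by rintro ⟨a, b⟩ ⟨a', b'⟩ h; simpa using h) (fun a => [ObA.p a])
    (fun N s q' => L q' s.2 ∧ ∀ r, L r q' → ∀ p, p ∈ s.1 → ObA.p p ∈ N → ¬ L r p)
  have g2 := hU.clos0 hκ (S := P × P) (T := P) (fun s => [ObA.p s.1, ObA.p s.2])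
    (by rintro ⟨a, b⟩ ⟨a', b'⟩ h; simpa using h) (fun a => [ObA.p a])
    (fun s r => L r s.1 ∧ L r s.2)
  have l1 := hU.clos hκ (S := Set (P × Y) × P × Y) (T := P)
    (fun s => [ObA.s s.1, ObA.p s.2.1, ObA.y s.2.2])
    (by rintro ⟨a, b, c⟩ ⟨a', b', c'⟩ h; simpa using h) (fun a => [ObA.p a])
    (fun N s r' => L r' s.2.1 ∧ ∀ r'', L r'' r' → ∀ p y, (p, y) ∈ s.1 → ObA.p p ∈ N →
      ObA.y y ∈ N → ¬ (L r'' p ∧ ρ s.2.2 y r''))
  have l2 := hU.clos0 hκ (S := P × P × Y × Y) (T := P)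
    (fun s => [ObA.p s.1, ObA.p s.2.1, ObA.y s.2.2.1, ObA.y s.2.2.2])
    (by rintro ⟨a, b, c, d⟩ ⟨a', b', c', d'⟩ h; simpa using h) (fun a => [ObA.p a])
    (fun s r' => L r' s.1 ∧ L r' s.2.1 ∧ ρ s.2.2.2 s.2.2.1 r')
  have l3 := hU.clos hκ (S := P × Y) (T := P × Y)
    (fun s => [ObA.p s.1, ObA.y s.2])
    (by rintro ⟨a, b⟩ ⟨a', b'⟩ h; simpa using h) (fun a => [ObA.p a.1, ObA.y a.2])
    (fun N s z => L z.1 s.1 ∧ LB L ρ N z.1 s.2 z.2)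
  filter_upwards [fulld, fulls, uniqd, uniqs, d1, d2, d3, s1, s2, s3, g1, g2, l1, l2, l3] with x
    fulld fulls uniqd uniqs d1 d2 d3 s1 s2 s3 g1 g2 l1 l2 l3
  refine ⟨fulld, fulls, ?_, ?_, ?_, ?_, ?_, ?_, ?_, ?_, ?_, ?_, ?_, ?_, ?_⟩
  · intro D1 D2 h1 h2 h
    by_contra hne
    have h3 : ∃ a, ¬ (a ∈ D1 ↔ a ∈ D2) := by
      by_contra hc
      push Not at hc
      exact hne (Set.ext hc)
    obtain ⟨a, ha, ha'⟩ := uniqd (D1, D2) (by simp [h1, h2]) h3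
    exact ha' (h a (ha _ (by simp)))
  · intro D1 D2 h1 h2 h
    by_contra hne
    have h3 : ∃ a, ¬ (a ∈ D1 ↔ a ∈ D2) := by
      by_contra hc
      push Not at hc
      exact hne (Set.ext hc)
    obtain ⟨a, ha, ha'⟩ := uniqs (D1, D2) (by simp [h1, h2]) h3
    exact ha' (h a.1 a.2 (ha _ (by simp)) (ha _ (by simp)))
  · rintro D hD ⟨p, q, h⟩
    obtain ⟨t, ht, h'⟩ := d1 D (by simpa using hD) ⟨(p, q), h⟩
    exact ⟨t.1, t.2, ht _ (by simp), ht _ (by simp), h'⟩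
  · rintro D hD ⟨p, h⟩
    obtain ⟨t, ht, h'⟩ := d2 D (by simpa using hD) ⟨p, h⟩
    exact ⟨t, ht _ (by simp), h'⟩
  · rintro D p hD hp ⟨q, h⟩
    obtain ⟨t, ht, h'⟩ := d3 (D, p) (by simp [hD, hp]) ⟨q, h⟩
    exact ⟨t, ht _ (by simp), h'⟩
  · rintro E hE ⟨p, y, p', y', h⟩
    obtain ⟨t, ht, h'⟩ := s1 E (by simpa using hE) ⟨(p, y, p', y'), h⟩
    exact ⟨t.1, t.2.1, t.2.2.1, t.2.2.2, ht _ (by simp), ht _ (by simp), ht _ (by simp),
      ht _ (by simp), h'⟩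
  · rintro E hE ⟨p, y, h⟩
    obtain ⟨t, ht, h'⟩ := s2 E (by simpa using hE) ⟨(p, y), h⟩
    exact ⟨t.1, t.2, ht _ (by simp), ht _ (by simp), h'⟩
  · rintro E p y hE hp hy ⟨p', y', h⟩
    obtain ⟨t, ht, h'⟩ := s3 (E, p, y) (by simp [hE, hp, hy]) ⟨(p', y'), h⟩
    exact ⟨t.1, t.2, ht _ (by simp), ht _ (by simp), h'⟩
  · rintro N hN hc D q hD hq ⟨q', h⟩
    obtain ⟨t, ht, h'⟩ := g1 N hN hc (D, q) (by simp [hD, hq]) ⟨q', h⟩
    exact ⟨t, ht _ (by simp), h'⟩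
  · rintro p q hp hq ⟨r, h⟩
    obtain ⟨t, ht, h'⟩ := g2 (p, q) (by simp [hp, hq]) ⟨r, h⟩
    exact ⟨t, ht _ (by simp), h'⟩
  · rintro N hN hc E r y1 hE hr hy ⟨r', h⟩
    obtain ⟨t, ht, h'⟩ := l1 N hN hc (E, r, y1) (by simp [hE, hr, hy]) ⟨r', h⟩
    exact ⟨t, ht _ (by simp), h'⟩
  · rintro r p y y1 hr hp hy hy1 ⟨r', h⟩
    obtain ⟨t, ht, h'⟩ := l2 (r, p, y, y1) (by simp [hr, hp, hy, hy1]) ⟨r', h⟩
    exact ⟨t, ht _ (by simp), h'⟩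
  · rintro N hN hc q y0 hq hy0 ⟨r, y1, h⟩
    obtain ⟨t, ht, h'⟩ := l3 N hN hc (q, y0) (by simp [hq, hy0]) ⟨(r, y1), h⟩
    exact ⟨t.1, t.2, ht _ (by simp), ht _ (by simp), h'⟩

end Pool.Agent.W_MP_315f31_lc
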