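import Pool.Agent.W_MP_315f31_lc.Abs

/-!
# MP_315f31_lc, part (D) (helper1): fine normal ultrafilters

`∀ᶠ x in U, φ x` for a fine normal `κ`-complete ultrafilter `U` on the subsets of `A`.
-/

universe u v

open Cardinal Set Filter

namespace Pool.Agent.W_MP_315f31_lc

namespace IsFNU

variable {κ : Cardinal.{u}} {A : Type u} {U : Ultrafilter (Set A)}

/-- completeness, indexed by a small type -/
theorem all_small (hU : IsFNU κ U) {I : Type v} (hI : Cardinal.lift.{u} #I < Cardinal.lift.{v} κ)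
    {φ : I → Set A → Prop} (h : ∀ i, ∀ᶠ x in U, φ i x) : ∀ᶠ x in U, ∀ i, φ i x := by
  have h1 : #(range fun i => {x | φ i x}) < κ := by
    have h2 := Cardinal.mk_range_le_lift (f := fun i => {x | φ i x})
    have h3 : Cardinal.lift.{v} #(range fun i => {x | φ i x}) < Cardinal.lift.{v} κ :=
      lt_of_le_of_lt h2 hI
    simpa using h3
  have h4 := hU.complete _ h1 (by rintro s ⟨i, rfl⟩; exact h i)
  refine Filter.mem_of_superset h4 ?_
  intro x hx i
  exact hx _ ⟨i, rfl⟩

theorem all_small' (hU : IsFNU κ U) {I : Type u} (hI : #I < κ)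
    {φ : I → Set A → Prop} (h : ∀ i, ∀ᶠ x in U, φ i x) : ∀ᶠ x in U, ∀ i, φ i x :=
  hU.all_small (by simpa using hI) h

theorem all_countable (hU : IsFNU κ U) (hκ : ℵ₀ < κ) {I : Type v} [Countable I]
    {φ : I → Set A → Prop} (h : ∀ i, ∀ᶠ x in U, φ i x) : ∀ᶠ x in U, ∀ i, φ i x := by
  refine hU.all_small ?_ h
  refine lt_of_le_of_lt (b := ℵ₀) ?_ ?_
  · simp
  · simpa using hκ

theorem mem' (hU : IsFNU κ U) (a : A) : ∀ᶠ x in (U : Filter (Set A)), a ∈ x := hU.fine a

/-- normality: an existential quantifier over the elements of `x` -/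
theorem ex (hU : IsFNU κ U) {φ : A → Set A → Prop} (h : ∀ᶠ x in U, ∃ a ∈ x, φ a x) :
    ∃ a, ∀ᶠ x in U, a ∈ x ∧ φ a x := by
  classical
  obtain ⟨x0, a0, -, -⟩ := h.exists
  let f : Set A → A := fun x => if h : ∃ a ∈ x, φ a x then h.choose else a0
  have h1 : {x | f x ∈ x} ∈ U := by
    refine Filter.mem_of_superset h ?_
    intro x hx
    have hx' : ∃ a ∈ x, φ a x := hx
    show f x ∈ x
    simp only [f, dif_pos hx']
    exact hx'.choose_spec.1
  obtain ⟨a, ha⟩ := hU.normal f h1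
  refine ⟨a, ?_⟩
  have ha' : ∀ᶠ x in U, f x = a := ha
  filter_upwards [ha', h] with x hx hx'
  simp only [f, dif_pos hx'] at hx
  rw [← hx]
  exact hx'.choose_spec

/-- normality: a universal quantifier over the elements of `x` -/
theorem all (hU : IsFNU κ U) {φ : A → Set A → Prop} (h : ∀ a, ∀ᶠ x in U, φ a x) :
    ∀ᶠ x in U, ∀ a ∈ x, φ a x := by
  by_contra hc
  rw [← Ultrafilter.eventually_not] at hc
  have h1 : ∀ᶠ x in U, ∃ a ∈ x, ¬ φ a x := by
    filter_upwards [hc] with x hx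
    push Not at hx
    exact hx
  obtain ⟨a, ha⟩ := hU.ex h1
  have h2 := ha.and (h a)
  obtain ⟨x, hx⟩ := h2.exists
  exact hx.1.2 hx.2

/-- a small sequence of elements of `x` is constant -/
theorem ex_seq (hU : IsFNU κ U) {I : Type v} (hI : Cardinal.lift.{u} #I < Cardinal.lift.{v} κ)
    {φ : (I → A) → Set A → Prop} (h : ∀ᶠ x in U, ∃ s : I → A, (∀ i, s i ∈ x) ∧ φ s x) :
    ∃ s : I → A, ∀ᶠ x in U, (∀ i, s i ∈ x) ∧ φ s x := by
  classical
  obtain ⟨x0, s0, -, -⟩ := h.exists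
  let f : Set A → I → A := fun x => if h : ∃ s : I → A, (∀ i, s i ∈ x) ∧ φ s x then h.choose else s0
  have h1 : ∀ i, ∃ a, ∀ᶠ x in U, f x i = a := by
    intro i
    obtain ⟨a, ha⟩ := hU.ex (φ := fun a x => f x i = a) (by
      filter_upwards [h] with x hx
      refine ⟨f x i, ?_, rfl⟩
      simp only [f, dif_pos hx]
      exact hx.choose_spec.1 i)
    exact ⟨a, ha.mono fun x hx => hx.2⟩
  choose s hs using h1
  refine ⟨s, ?_⟩
  filter_upwards [hU.all_small hI hs, h] with x hx hx'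
  have h2 : f x = s := funext hx
  rw [← h2]
  simp only [f, dif_pos hx']
  exact hx'.choose_spec

theorem all_seq (hU : IsFNU κ U) {I : Type v} (hI : Cardinal.lift.{u} #I < Cardinal.lift.{v} κ)
    {φ : (I → A) → Set A → Prop} (h : ∀ s, ∀ᶠ x in U, φ s x) :
    ∀ᶠ x in U, ∀ s : I → A, (∀ i, s i ∈ x) → φ s x := by
  by_contra hc
  rw [← Ultrafilter.eventually_not] at hc
  have h1 : ∀ᶠ x in U, ∃ s : I → A, (∀ i, s i ∈ x) ∧ ¬ φ s x := by
    filter_upwards [hc] with x hx
    push Not at hx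
    exact hx
  obtain ⟨a, ha⟩ := hU.ex_seq hI h1
  have h2 := ha.and (h a)
  obtain ⟨x, hx⟩ := h2.exists
  exact hx.1.2 hx.2

/-- closure under a Skolem function of small sequences -/
theorem closed (hU : IsFNU κ U) {I : Type v} (hI : Cardinal.lift.{u} #I < Cardinal.lift.{v} κ)
    (φ : (I → A) → A → Prop) :
    ∀ᶠ x in (U : Filter (Set A)), ∀ s : I → A, (∀ i, s i ∈ x) → (∃ z, φ s z) →
      ∃ z ∈ x, φ s z := by
  refine hU.all_seq hI ?_
  intro s
  by_cases h : ∃ z, φ s z
  · obtain ⟨z, hz⟩ := h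
    have h1 : ∀ᶠ x in (U : Filter (Set A)), z ∈ x := hU.fine z
    filter_upwards [h1] with x hx _
    exact ⟨z, hx, hz⟩
  · exact Eventually.of_forall fun x h' => absurd h' h

/-- the limit of a family of subsets -/
theorem ex_set (hU : IsFNU κ U) (W : Set A → Set A) :
    ∀ᶠ x in U, ∀ a ∈ x, (a ∈ W x ↔ ∀ᶠ x' in U, a ∈ W x') := by
  refine hU.all ?_
  intro a
  by_cases h : ∀ᶠ x' in U, a ∈ W x'
  · filter_upwards [h] with x hx
    exact ⟨fun _ => h, fun _ => hx⟩
  · have h' := h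
    rw [← Ultrafilter.eventually_not] at h'
    filter_upwards [h'] with x hx
    exact ⟨fun h1 => absurd h1 hx, fun h1 => absurd h1 h⟩

/-- restriction to a smaller type -/
theorem map (hU : IsFNU κ U) {B : Type u} (c : B → A) (hc : Function.Injective c) :
    IsFNU κ (U.map fun x => c ⁻¹' x) where
  small := by
    have h := hU.small
    rw [Ultrafilter.mem_map]
    refine Filter.mem_of_superset h ?_
    intro x hx
    have h1 : #(c ⁻¹' x) ≤ #x := by
      refine Cardinal.mk_le_of_injective (f := fun b : c ⁻¹' x => (⟨c b.1, b.2⟩ : x)) ?_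
      intro a b hab
      have := congrArg Subtype.val hab
      exact Subtype.ext (hc this)
    exact lt_of_le_of_lt h1 hx
  fine b := hU.fine (c b)
  complete S hS h := by
    rw [Ultrafilter.mem_map]
    have h1 : ∀ᶠ x in U, ∀ s : S, c ⁻¹' x ∈ s.1 :=
      hU.all_small' hS fun s => h s.1 s.2
    refine Filter.mem_of_superset h1 ?_
    intro x hx s hs
    exact hx ⟨s, hs⟩
  normal f h := by
    rw [Ultrafilter.mem_map] at h
    obtain ⟨a, ha⟩ := hU.normal (fun x => c (f (c ⁻¹' x))) h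
    have ha' : ∀ᶠ x in U, c (f (c ⁻¹' x)) = a := ha
    obtain ⟨x0, hx0⟩ := ha'.exists
    refine ⟨f (c ⁻¹' x0), ?_⟩
    rw [Ultrafilter.mem_map]
    refine Filter.mem_of_superset ha' ?_
    intro x hx
    apply hc
    exact (show c (f (c ⁻¹' x)) = a from hx).trans hx0.symm

end IsFNU

end Pool.Agent.W_MP_315f31_lc
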