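import Pool.Agent.W_MP_315f31_lc.D_h1.Down

/-!
# MP_315f31_lc, part (D) (helper1): bad structures on `U`-many `x` give a bad structure on `P`
-/

universe u v w

open Cardinal Set Filter

namespace Pool.Agent.W_MP_315f31_lc

variable {P Y W : Type u} {κ : Cardinal.{u}} {U : Ultrafilter (Set (ObA P Y))}

theorem Bad.up (hU : IsFNU κ U) (hκ : ℵ₀ < κ) (hW : #W < κ) {L : P → P → Prop}
    {ρ : Y → Y → P → Prop} {D : W → Y → P → Prop} {p0 : P}
    (h : ∀ᶠ x in (U : Filter (Set (ObA P Y))), ∃ (P' Y' : Type u) (i : P' → P) (j : Y' → Y),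
      Function.Injective i ∧ Function.Injective j ∧ range i = {a | ObA.p a ∈ x} ∧
      range j = {b | ObA.y b ∈ x} ∧ ∃ p0', i p0' = p0 ∧
      Bad (fun a b => L (i a) (i b)) (fun a b q => ρ (j a) (j b) (i q))
        (fun w a q => D w (j a) (i q)) p0') :
    Bad L ρ D p0 := by
  have hreg := hU.clos0 hκ (S := Y × Y × P) (T := P) (fun s => [ObA.y s.1, ObA.y s.2.1, ObA.p s.2.2])
    (by rintro ⟨a, b, c⟩ ⟨a', b', c'⟩ h; simpa using h) (fun a => [ObA.p a])
    (fun s r => L r s.2.2 ∧ ρ s.1 s.2.1 r)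
  refine ⟨?_, ⟨?_, ?_, ?_, ?_⟩, ?_, ⟨?_, ?_⟩, ?_⟩
  · obtain ⟨x, P', Y', i, j, hi, hj, hri, hrj, p0', hp0', hB⟩ := h.exists
    obtain ⟨y⟩ := hB.ne
    exact ⟨j y⟩
  · intro y p
    obtain ⟨x, ⟨P', Y', i, j, hi, hj, hri, hrj, p0', hp0', hB⟩, hy, hp⟩ :=
      (h.and ((hU.mem' (ObA.y y)).and (hU.mem' (ObA.p p)))).exists
    obtain ⟨y, rfl⟩ := exists_of_range hrj hy
    obtain ⟨p, rfl⟩ := exists_of_range hri hp
    exact hB.ord.refl y p
  · intro a b c p
    obtain ⟨x, ⟨P', Y', i, j, hi, hj, hri, hrj, p0', hp0', hB⟩, ha, hb, hc, hp⟩ :=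
      (h.and ((hU.mem' (ObA.y a)).and ((hU.mem' (ObA.y b)).and ((hU.mem' (ObA.y c)).and
        (hU.mem' (ObA.p p)))))).exists
    obtain ⟨a, rfl⟩ := exists_of_range hrj ha
    obtain ⟨b, rfl⟩ := exists_of_range hrj hb
    obtain ⟨c, rfl⟩ := exists_of_range hrj hc
    obtain ⟨p, rfl⟩ := exists_of_range hri hp
    exact hB.ord.trans a b c p
  · intro a b p q
    obtain ⟨x, ⟨P', Y', i, j, hi, hj, hri, hrj, p0', hp0', hB⟩, ha, hb, hp, hq⟩ :=
      (h.and ((hU.mem' (ObA.y a)).and ((hU.mem' (ObA.y b)).and ((hU.mem' (ObA.p p)).and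
        (hU.mem' (ObA.p q)))))).exists
    obtain ⟨a, rfl⟩ := exists_of_range hrj ha
    obtain ⟨b, rfl⟩ := exists_of_range hrj hb
    obtain ⟨p, rfl⟩ := exists_of_range hri hp
    obtain ⟨q, rfl⟩ := exists_of_range hri hq
    exact hB.ord.mono a b p q
  · intro a b p hreg'
    obtain ⟨x, ⟨P', Y', i, j, hi, hj, hri, hrj, p0', hp0', hB⟩, ha, hb, hp, hx⟩ :=
      (h.and ((hU.mem' (ObA.y a)).and ((hU.mem' (ObA.y b)).and ((hU.mem' (ObA.p p)).and
        hreg)))).exists
    obtain ⟨a, rfl⟩ := exists_of_range hrj ha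
    obtain ⟨b, rfl⟩ := exists_of_range hrj hb
    obtain ⟨p, rfl⟩ := exists_of_range hri hp
    refine hB.ord.reg a b p ?_
    intro q hq
    have hm := mem_of_range hri q
    obtain ⟨t, ht, ht'⟩ := hx (j a, j b, i q) (by
      intro o ho
      simp only [List.mem_cons, List.not_mem_nil, or_false] at ho
      rcases ho with rfl | rfl | rfl
      · exact ha
      · exact hb
      · exact hm) (hreg' (i q) hq)
    obtain ⟨t, rfl⟩ := exists_of_range hri (ht _ List.mem_cons_self)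
    exact ⟨t, ht'⟩
  · -- tp
    let S : Set (ObA P Y) → Set (Set (ObA P Y)) := fun x =>
      {N | ∀ q, ObA.p q ∈ x → L q p0 → GenA L N q → ∀ y0, ObA.y y0 ∈ N →
        ∃ r y1, L r q ∧ LB L ρ N r y0 y1}
    have hS : ∀ᶠ x in (U : Filter (Set (ObA P Y))), ∃ F : ℕ → List (ObA P Y) → Option (ObA P Y),
        ∀ N : Set (ObA P Y), N ⊆ x → N.Countable →
        (∀ n l, (∀ a ∈ l, a ∈ N) → ∀ z ∈ x, F n l = some z → z ∈ N) → N ∈ S x := by
      filter_upwards [h, hU.good hκ L ρ] with x hx hgood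
      obtain ⟨P', Y', i, j, hi, hj, hri, hrj, p0', rfl, hB⟩ := hx
      obtain ⟨g, hg, hgr⟩ := hgood.exists_emb i j hri hrj hi hj
      obtain ⟨F', hF'⟩ := hB.tp
      classical
      refine ⟨fun n l => if h : ∃ l', l = List.map g l' then (F' n h.choose).map g else none, ?_⟩
      intro N hN hc hcl q hq hqp hgen y0 hy0
      have hN' : g '' (g ⁻¹' N) = N := by
        rw [image_preimage_eq_iff, hgr]
        exact hN
      have hc' : (g ⁻¹' N).Countable := hc.preimage hg.inj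
      have hmem := hF' (g ⁻¹' N) hc' (by
        intro n l hl z hz
        have h1 : ∃ l', l.map g = List.map g l' := ⟨l, rfl⟩
        refine hcl n (l.map g) ?_ (g z) ?_ ?_
        · intro a ha
          obtain ⟨b, hb, rfl⟩ := List.mem_map.1 ha
          exact hl b hb
        · rw [← hgr]
          exact ⟨z, rfl⟩
        · have h2 : h1.choose = l := (List.map_injective_iff.2 hg.inj h1.choose_spec).symm
          simp only [dif_pos h1, h2, hz, Option.map_some])
      obtain ⟨q, rfl⟩ := exists_of_range hri hq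
      have hy0x : ObA.y y0 ∈ x := hN hy0
      obtain ⟨y0, rfl⟩ := exists_of_range hrj hy0x
      obtain ⟨r, y1, h1, h2⟩ := hmem q hqp ((hg.gen _ q hc').2 (by rw [hN']; exact hgen)) y0 (by
        show g (ObA.y y0) ∈ N
        rw [hg.gy]
        exact hy0)
      refine ⟨i r, j y1, h1, ?_⟩
      rw [← hN']
      exact (hg.lb _ r y0 y1 hc').1 h2
    refine (club_lift hU hκ S hS).mono_ctbl ?_
    intro N hN hc q hq hgen y0 hy0
    have hN' : ∀ᶠ x in (U : Filter (Set (ObA P Y))), N ∈ S x := hN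
    obtain ⟨x, hx, hqx⟩ := (hN'.and (hU.mem' (ObA.p q))).exists
    exact hx q hqx hq hgen y0 hy0
  · intro w y p y' q
    obtain ⟨x, ⟨P', Y', i, j, hi, hj, hri, hrj, p0', hp0', hB⟩, ha, hb, hp, hq⟩ :=
      (h.and ((hU.mem' (ObA.y y)).and ((hU.mem' (ObA.y y')).and ((hU.mem' (ObA.p p)).and
        (hU.mem' (ObA.p q)))))).exists
    obtain ⟨y, rfl⟩ := exists_of_range hrj ha
    obtain ⟨y', rfl⟩ := exists_of_range hrj hb
    obtain ⟨p, rfl⟩ := exists_of_range hri hp
    obtain ⟨q, rfl⟩ := exists_of_range hri hq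
    exact hB.dns.1 w y p y' q
  · intro w p hp y
    obtain ⟨x, ⟨P', Y', i, j, hi, hj, hri, hrj, p0', rfl, hB⟩, hy, hpx⟩ :=
      (h.and ((hU.mem' (ObA.y y)).and (hU.mem' (ObA.p p)))).exists
    obtain ⟨y, rfl⟩ := exists_of_range hrj hy
    obtain ⟨p, rfl⟩ := exists_of_range hri hpx
    obtain ⟨q, y', h1⟩ := hB.dns.2 w p hp y
    exact ⟨i q, j y', h1⟩
  · intro q hq F hF
    have hdir := hU.clos0 hκ (S := Y × Y × P) (T := P × Y)
      (fun s => [ObA.y s.1, ObA.y s.2.1, ObA.p s.2.2])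
      (by rintro ⟨a, b, c⟩ ⟨a', b', c'⟩ h; simpa using h) (fun a => [ObA.p a.1, ObA.y a.2])
      (fun s t => L t.1 s.2.2 ∧ F t.2 t.1 ∧ ρ t.2 s.1 t.1 ∧ ρ t.2 s.2.1 t.1)
    have hmeet : ∀ᶠ x in (U : Filter (Set (ObA P Y))), ∀ w : W, ∀ s : P,
      (∀ a ∈ [ObA.p s], a ∈ x) → (∃ t : P × Y, L t.1 s ∧ F t.2 t.1 ∧ D w t.2 t.1) →
      ∃ t : P × Y, (∀ a ∈ [ObA.p t.1, ObA.y t.2], a ∈ x) ∧ L t.1 s ∧ F t.2 t.1 ∧ D w t.2 t.1 :=
      hU.all_small' hW fun w => hU.clos0 hκ (S := P) (T := P × Y) (fun s => [ObA.p s])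
        (by rintro a a' h; simpa using h) (fun t => [ObA.p t.1, ObA.y t.2])
        (fun s t => L t.1 s ∧ F t.2 t.1 ∧ D w t.2 t.1)
    obtain ⟨x, ⟨P', Y', i, j, hi, hj, hri, hrj, p0', rfl, hB⟩, hqx, hdir, hmeet⟩ :=
      (h.and ((hU.mem' (ObA.p q)).and (hdir.and hmeet))).exists
    obtain ⟨q, rfl⟩ := exists_of_range hri hqx
    refine hB.nof q hq (fun y r => F (j y) (i r)) ⟨?_, ?_, ?_⟩
    · intro y p r hyp hrp
      exact hF.mono _ _ _ hyp hrp
    · intro y y' r hrq hyr hyr'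
      have hm := mem_of_range hri r
      have hn := mem_of_range hrj y
      have hn' := mem_of_range hrj y'
      obtain ⟨r', z, k⟩ := hF.dir (j y) (j y') (i r) hrq hyr hyr'
      obtain ⟨t, ht, ht'⟩ := hdir (j y, j y', i r) (by
        intro o ho
        simp only [List.mem_cons, List.not_mem_nil, or_false] at ho
        rcases ho with rfl | rfl | rfl
        · exact hn
        · exact hn'
        · exact hm) ⟨(r', z), k⟩
      obtain ⟨a, ha⟩ := exists_of_range hri (ht _ List.mem_cons_self)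
      obtain ⟨b, hb⟩ := exists_of_range hrj (ht _ (List.mem_cons_of_mem _ List.mem_cons_self))
      rw [← ha, ← hb] at ht'
      exact ⟨a, b, ht'⟩
    · intro w r hrq
      have hm := mem_of_range hri r
      obtain ⟨r', y, k⟩ := hF.meet w (i r) hrq
      obtain ⟨t, ht, ht'⟩ := hmeet w (i r) (by
        intro o ho
        simp only [List.mem_cons, List.not_mem_nil, or_false] at ho
        rcases ho with rfl
        exact hm) ⟨(r', y), k⟩
      obtain ⟨a, ha⟩ := exists_of_range hri (ht _ List.mem_cons_self)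
      obtain ⟨b, hb⟩ := exists_of_range hrj (ht _ (List.mem_cons_of_mem _ List.mem_cons_self))
      rw [← ha, ← hb] at ht'
      exact ⟨a, b, ht'⟩

/-- If `U`-many small structures carry a bad structure, then `P` carries one. -/
theorem exists_bad_of_small (hU : IsFNU κ U) (hκ : ℵ₀ < κ) (hW : #W < κ) {L : P → P → Prop}
    (h : ∀ᶠ x in (U : Filter (Set (ObA P Y))), ∃ (P' Y' : Type u) (i : P' → P) (j : Y' → Y),
      Function.Injective i ∧ Function.Injective j ∧ range i = {a | ObA.p a ∈ x} ∧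
      range j = {b | ObA.y b ∈ x} ∧ ∃ (ρ' : Y' → Y' → P' → Prop) (D' : W → Y' → P' → Prop) (p0' : P'),
      Bad (fun a b => L (i a) (i b)) ρ' D' p0') :
    ∃ (ρ : Y → Y → P → Prop) (D : W → Y → P → Prop) (p0 : P), Bad L ρ D p0 := by
  -- the data as relations on `P` and `Y`
  have h1 : ∀ᶠ x in (U : Filter (Set (ObA P Y))),
      ∃ z : (Y → Y → P → Prop) × (W → Y → P → Prop) × P, ObA.p z.2.2 ∈ x ∧
      ∃ (P' Y' : Type u) (i : P' → P) (j : Y' → Y),
      Function.Injective i ∧ Function.Injective j ∧ range i = {a | ObA.p a ∈ x} ∧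
      range j = {b | ObA.y b ∈ x} ∧ ∃ p0', i p0' = z.2.2 ∧
      Bad (fun a b => L (i a) (i b)) (fun a b q => z.1 (j a) (j b) (i q))
        (fun w a q => z.2.1 w (j a) (i q)) p0' := by
    filter_upwards [h] with x hx
    obtain ⟨P', Y', i, j, hi, hj, hri, hrj, ρ', D', p0', hB⟩ := hx
    refine ⟨(fun a b q => ∃ a' b' q', j a' = a ∧ j b' = b ∧ i q' = q ∧ ρ' a' b' q',
      fun w a q => ∃ a' q', j a' = a ∧ i q' = q ∧ D' w a' q', i p0'), mem_of_range hri p0',
      P', Y', i, j, hi, hj, hri, hrj, p0', rfl, ?_⟩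
    have e1 : (fun a b q => ∃ a' b' q', j a' = j a ∧ j b' = j b ∧ i q' = i q ∧ ρ' a' b' q') =
        ρ' := by
      funext a b q
      apply propext
      constructor
      · rintro ⟨a', b', q', h1, h2, h3, h4⟩
        rw [← hj h1, ← hj h2, ← hi h3]
        exact h4
      · intro h4
        exact ⟨a, b, q, rfl, rfl, rfl, h4⟩
    have e2 : (fun w a q => ∃ a' q', j a' = j a ∧ i q' = i q ∧ D' w a' q') = D' := by
      funext w a q
      apply propext
      constructor
      · rintro ⟨a', q', h1, h3, h4⟩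
        rw [← hj h1, ← hi h3]
        exact h4
      · intro h4
        exact ⟨a, q, rfl, rfl, h4⟩
    show Bad (fun a b => L (i a) (i b))
      (fun a b q => ∃ a' b' q', j a' = j a ∧ j b' = j b ∧ i q' = i q ∧ ρ' a' b' q')
      (fun w a q => ∃ a' q', j a' = j a ∧ i q' = i q ∧ D' w a' q') p0'
    rw [e1, e2]
    exact hB
  obtain ⟨x0, z0, -⟩ := h1.exists
  classical
  let Z : Set (ObA P Y) → (Y → Y → P → Prop) × (W → Y → P → Prop) × P := fun x =>
    if h : ∃ z : (Y → Y → P → Prop) × (W → Y → P → Prop) × P, ObA.p z.2.2 ∈ x ∧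
      ∃ (P' Y' : Type u) (i : P' → P) (j : Y' → Y),
      Function.Injective i ∧ Function.Injective j ∧ range i = {a | ObA.p a ∈ x} ∧
      range j = {b | ObA.y b ∈ x} ∧ ∃ p0', i p0' = z.2.2 ∧
      Bad (fun a b => L (i a) (i b)) (fun a b q => z.1 (j a) (j b) (i q))
        (fun w a q => z.2.1 w (j a) (i q)) p0' then h.choose else z0
  have h2 : ∀ᶠ x in (U : Filter (Set (ObA P Y))), ObA.p (Z x).2.2 ∈ x ∧
      ∃ (P' Y' : Type u) (i : P' → P) (j : Y' → Y),
      Function.Injective i ∧ Function.Injective j ∧ range i = {a | ObA.p a ∈ x} ∧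
      range j = {b | ObA.y b ∈ x} ∧ ∃ p0', i p0' = (Z x).2.2 ∧
      Bad (fun a b => L (i a) (i b)) (fun a b q => (Z x).1 (j a) (j b) (i q))
        (fun w a q => (Z x).2.1 w (j a) (i q)) p0' := by
    filter_upwards [h1] with x hx
    simp only [Z, dif_pos hx]
    exact hx.choose_spec
  -- the limits
  obtain ⟨op0, hop0⟩ := hU.ex (φ := fun o x => o = ObA.p (Z x).2.2) (by
    filter_upwards [h2] with x hx
    exact ⟨_, hx.1, rfl⟩)
  obtain ⟨x1, -, hx1⟩ := hop0.exists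
  obtain ⟨p0, rfl⟩ : ∃ p0, op0 = ObA.p p0 := ⟨_, hx1⟩
  have hp0 : ∀ᶠ x in (U : Filter (Set (ObA P Y))), (Z x).2.2 = p0 := by
    filter_upwards [hop0] with x hx
    exact (ObA.p.inj hx.2).symm
  let ρ : Y → Y → P → Prop := fun a b q => ∀ᶠ x in (U : Filter (Set (ObA P Y))), (Z x).1 a b q
  let D : W → Y → P → Prop := fun w a q => ∀ᶠ x in (U : Filter (Set (ObA P Y))), (Z x).2.1 w a q
  have hρ : ∀ᶠ x in (U : Filter (Set (ObA P Y))), ∀ oa ∈ x, ∀ ob ∈ x, ∀ oq ∈ x, ∀ a b q,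
      oa = ObA.y a → ob = ObA.y b → oq = ObA.p q → (ρ a b q ↔ (Z x).1 a b q) := by
    refine hU.all fun oa => hU.all fun ob => hU.all fun oq => ?_
    by_cases hyr : ∃ a b q, oa = ObA.y a ∧ ob = ObA.y b ∧ oq = ObA.p q
    · obtain ⟨a, b, q, rfl, rfl, rfl⟩ := hyr
      by_cases h : ρ a b q
      · have h' : ∀ᶠ x in (U : Filter (Set (ObA P Y))), (Z x).1 a b q := h
        filter_upwards [h'] with x hx a' b' q' ha' hb' hq'
        obtain rfl := ObA.y.inj ha'
        obtain rfl := ObA.y.inj hb'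
        obtain rfl := ObA.p.inj hq'
        exact ⟨fun _ => hx, fun _ => h⟩
      · have h' : ¬ ∀ᶠ x in (U : Filter (Set (ObA P Y))), (Z x).1 a b q := h
        rw [← Ultrafilter.eventually_not] at h'
        filter_upwards [h'] with x hx a' b' q' ha' hb' hq'
        obtain rfl := ObA.y.inj ha'
        obtain rfl := ObA.y.inj hb'
        obtain rfl := ObA.p.inj hq'
        exact ⟨fun h1 => absurd h1 h, fun h1 => absurd h1 hx⟩
    · exact Eventually.of_forall fun x a b q ha hb hq => absurd ⟨a, b, q, ha, hb, hq⟩ hyr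
  have hD : ∀ᶠ x in (U : Filter (Set (ObA P Y))), ∀ w, ∀ oa ∈ x, ∀ oq ∈ x, ∀ a q,
      oa = ObA.y a → oq = ObA.p q → (D w a q ↔ (Z x).2.1 w a q) := by
    refine hU.all_small' hW fun w => hU.all fun oa => hU.all fun oq => ?_
    by_cases hyr : ∃ a q, oa = ObA.y a ∧ oq = ObA.p q
    · obtain ⟨a, q, rfl, rfl⟩ := hyr
      by_cases h : D w a q
      · have h' : ∀ᶠ x in (U : Filter (Set (ObA P Y))), (Z x).2.1 w a q := h
        filter_upwards [h'] with x hx a' q' ha' hq'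
        obtain rfl := ObA.y.inj ha'
        obtain rfl := ObA.p.inj hq'
        exact ⟨fun _ => hx, fun _ => h⟩
      · have h' : ¬ ∀ᶠ x in (U : Filter (Set (ObA P Y))), (Z x).2.1 w a q := h
        rw [← Ultrafilter.eventually_not] at h'
        filter_upwards [h'] with x hx a' q' ha' hq'
        obtain rfl := ObA.y.inj ha'
        obtain rfl := ObA.p.inj hq'
        exact ⟨fun h1 => absurd h1 h, fun h1 => absurd h1 hx⟩
    · exact Eventually.of_forall fun x a q ha hq => absurd ⟨a, q, ha, hq⟩ hyr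
  refine ⟨ρ, D, p0, Bad.up hU hκ hW ?_⟩
  filter_upwards [h2, hp0, hρ, hD] with x hx hp0 hρ hD
  obtain ⟨-, P', Y', i, j, hi, hj, hri, hrj, p0', hp0', hB⟩ := hx
  refine ⟨P', Y', i, j, hi, hj, hri, hrj, p0', hp0'.trans hp0, ?_⟩
  have e1 : (fun a b q => ρ (j a) (j b) (i q)) = fun a b q => (Z x).1 (j a) (j b) (i q) := by
    funext a b q
    exact propext (hρ _ (mem_of_range hrj a) _ (mem_of_range hrj b) _ (mem_of_range hri q) _ _ _
      rfl rfl rfl)
  have e2 : (fun w a q => D w (j a) (i q)) = fun w a q => (Z x).2.1 w (j a) (i q) := by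
    funext w a q
    exact propext (hD w _ (mem_of_range hrj a) _ (mem_of_range hri q) _ _ rfl rfl)
  rw [e1, e2]
  exact hB

end Pool.Agent.W_MP_315f31_lc
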